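import Mathlib

/-!
Two solutions of x σ(x) = n with the same smooth part and with exponents comparable in the
divisibility order of the numbers a + 1 coincide; a Kraft type inequality with a free letter.
-/

open Finset ArithmeticFunction

namespace Pool.Agent.Lib.MP_253cbc_nt

lemma kraft0 (c : ℕ → ℕ → ℕ) (w : ℕ → ℕ → ℝ) (N : ℕ → Finset ℕ) (h0 : ∀ p k, 0 ≤ w p k)
    (hw : ∀ p, ∑ k ∈ N p, w p k ≤ 1) (P : Finset ℕ) : ∀ X : Finset ℕ,
    (∀ x ∈ X, ∀ p ∈ P, c x p ∈ N p) →
    (∀ x ∈ X, ∀ x' ∈ X, (∀ p ∈ P, c x p = 0 ∨ c x' p = 0 ∨ c x p = c x' p) → x = x') →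
    ∑ x ∈ X, ∏ p ∈ P, (if c x p = 0 then 1 else w p (c x p)) ≤ 1 := by
  induction P using Finset.induction_on with
  | empty =>
    intro X _ h
    simp only [prod_empty, sum_const, nsmul_eq_mul, mul_one]
    exact_mod_cast card_le_one.2 fun x hx x' hx' => h x hx x' hx' (by simp)
  | insert m P hm ih =>
    intro X h1 h2
    have h3 : ∀ k, ∑ x ∈ X, (if c x m = 0 ∨ c x m = k then 1 else 0) *
        ∏ p ∈ P, (if c x p = 0 then 1 else w p (c x p)) ≤ 1 := fun k => by
      have := ih (X.filter fun x => c x m = 0 ∨ c x m = k)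
        (fun x hx p hp => h1 x (mem_filter.1 hx).1 p (mem_insert_of_mem hp))
        (fun x hx x' hx' h => h2 x (mem_filter.1 hx).1 x' (mem_filter.1 hx').1 fun p hp => by
          rcases mem_insert.1 hp with rfl | hp
          · have := (mem_filter.1 hx).2
            have := (mem_filter.1 hx').2
            omega
          · exact h p hp)
      simpa only [sum_filter, ite_mul, one_mul, zero_mul] using this
    have h4 : ∀ x ∈ X, (if c x m = 0 then 1 else w m (c x m)) =
        ∑ k ∈ N m, w m k * (if c x m = 0 ∨ c x m = k then 1 else 0) +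
          (1 - ∑ k ∈ N m, w m k) * (if c x m = 0 ∨ c x m = 0 then 1 else 0) := fun x hx => by
      by_cases h : c x m = 0
      · simp [h]
      · simp [h, h1 x hx m (mem_insert_self _ _)]
    rw [sum_congr rfl fun x hx => by rw [prod_insert hm, h4 x hx]]
    simp only [add_mul, sum_mul, sum_add_distrib, mul_assoc]
    rw [sum_comm]
    simp only [← mul_sum]
    have h5 := sum_le_sum fun k (_ : k ∈ N m) => mul_le_of_le_one_right (h0 m k) (h3 k)
    have h6 := mul_le_of_le_one_right (sub_nonneg.2 (hw m)) (h3 0)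
    linarith

lemma sigma_dvd {p a b : ℕ} (hp : p.Prime) (h : a + 1 ∣ b + 1) :
    sigma 1 (p ^ a) ∣ sigma 1 (p ^ b) := by
  have h1 : ∀ c, sigma 1 (p ^ c) * (p - 1) = p ^ (c + 1) - 1 := fun c => by
    rw [sigma_one_apply_prime_pow hp, geom_sum_mul_of_one_le hp.one_le]
  refine Nat.dvd_of_mul_dvd_mul_right (Nat.sub_pos_of_lt hp.one_lt) ?_
  rw [h1, h1]
  exact Nat.pow_sub_one_dvd_pow_sub_one _ h

lemma sigma_eq_prod {x : ℕ} (hx : x ≠ 0) {S : Finset ℕ} (hS : x.primeFactors ⊆ S) :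
    sigma 1 x = ∏ q ∈ S, sigma 1 (q ^ x.factorization q) := by
  rw [isMultiplicative_sigma.multiplicative_factorization _ hx, Finsupp.prod,
    Nat.support_factorization]
  refine prod_subset hS fun q _ hq => ?_
  rw [← Nat.support_factorization, Finsupp.notMem_support_iff] at hq
  simp [hq]

lemma mul_sigma_le (g : ℕ) {X : ℕ} (hX : X ≠ 0) (hg : g ≠ 0) : X * sigma 1 g ≤ sigma 1 (g * X) := by
  rw [sigma_one_apply, sigma_one_apply, mul_sum, ← sum_image (f := fun d => d) (g := fun d => X * d)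
    fun a _ b _ h => Nat.eq_of_mul_eq_mul_left (Nat.pos_of_ne_zero hX) h]
  refine sum_le_sum_of_subset fun d hd => ?_
  obtain ⟨e, he, rfl⟩ := mem_image.1 hd
  rw [mul_comm g]
  exact Nat.mem_divisors.2 ⟨Nat.mul_dvd_mul_left _ (Nat.dvd_of_mem_divisors he), mul_ne_zero hX hg⟩

lemma self_le_sigma {x : ℕ} (hx : x ≠ 0) : x ≤ sigma 1 x := by
  simpa using mul_sigma_le 1 hx one_ne_zero

/-- the uniqueness lemma -/
theorem pair_eq {z z' : ℕ} (hz : z ≠ 0) (hz' : z' ≠ 0) (h : z * sigma 1 z = z' * sigma 1 z')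
    (h1 : sigma 1 z < 2 * z) (h2 : sigma 1 z' < 2 * z')
    (hc : ∀ p, p.Prime → z.factorization p + 1 ∣ z'.factorization p + 1 ∨
      z'.factorization p + 1 ∣ z.factorization p + 1) : z = z' := by
  have key : ∀ {z z' : ℕ}, z ≠ 0 → z' ≠ 0 → (∀ p, p.Prime →
      z.factorization p + 1 ∣ z'.factorization p + 1 ∨
        z'.factorization p + 1 ∣ z.factorization p + 1) → sigma 1 (z.gcd z') ∣ sigma 1 z := by
    intro z z' hz hz' hc
    rw [sigma_eq_prod hz subset_rfl, sigma_eq_prod (Nat.gcd_ne_zero_left hz)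
      (Nat.primeFactors_mono (Nat.gcd_dvd_left _ _) hz)]
    refine prod_dvd_prod_of_dvd _ _ fun p hp => sigma_dvd (Nat.prime_of_mem_primeFactors hp) ?_
    rw [Nat.factorization_gcd hz hz', Finsupp.inf_apply]
    rcases hc p (Nat.prime_of_mem_primeFactors hp) with h | h
    · rw [min_eq_left (Nat.le_of_succ_le_succ (Nat.le_of_dvd (Nat.succ_pos _) h))]
    · rwa [min_eq_right (Nat.le_of_succ_le_succ (Nat.le_of_dvd (Nat.succ_pos _) h))]
  obtain ⟨R, hR⟩ := key hz hz' hc
  obtain ⟨R', hR'⟩ := key hz' hz fun p hp => (hc p hp).symm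
  rw [Nat.gcd_comm] at hR'
  obtain ⟨g, X, X', hg, hco, rfl, rfl⟩ : ∃ g X X', g = z.gcd z' ∧ X.Coprime X' ∧ z = g * X ∧
      z' = g * X' := by
    obtain ⟨X, X', h1, h2, h3⟩ := Nat.exists_coprime z z'
    exact ⟨_, X, X', rfl, h1, by rw [mul_comm]; exact h2, by rw [mul_comm]; exact h3⟩
  rw [← hg] at hR hR'
  have g0 : g ≠ 0 := left_ne_zero_of_mul hz
  have x0 : X ≠ 0 := right_ne_zero_of_mul hz
  have x0' : X' ≠ 0 := right_ne_zero_of_mul hz'
  have s0 : 0 < sigma 1 g := sigma_pos _ _ g0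
  have s1 := self_le_sigma g0
  have e1 : X * R = X' * R' := by
    rw [hR, hR'] at h
    refine Nat.eq_of_mul_eq_mul_left (Nat.mul_pos (Nat.pos_of_ne_zero g0) s0) ?_
    linear_combination h
  obtain ⟨m, rfl⟩ : X' ∣ R := hco.symm.dvd_of_dvd_mul_left ⟨R', e1⟩
  obtain rfl : R' = X * m := Nat.eq_of_mul_eq_mul_left (Nat.pos_of_ne_zero x0') (by
    linear_combination -e1)
  have a1 := mul_sigma_le g x0 g0
  have a2 := mul_sigma_le g x0' g0
  rw [hR] at a1 h1
  rw [hR'] at a2 h2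
  have b1 : X ≤ X' * m := Nat.le_of_mul_le_mul_left (by linarith) s0
  have b2 : X' ≤ X * m := Nat.le_of_mul_le_mul_left (by linarith) s0
  have b3 : X' * m < 2 * X := Nat.lt_of_mul_lt_mul_left (a := sigma 1 g) (by nlinarith)
  have b4 : X * m < 2 * X' := Nat.lt_of_mul_lt_mul_left (a := sigma 1 g) (by nlinarith)
  have m1 : m ≤ 1 := by
    by_contra hm
    nlinarith
  congr 1
  nlinarith

lemma one_sub_sum_le (S : Finset ℕ) (f : ℕ → ℝ) (h : ∀ p ∈ S, 0 ≤ f p ∧ f p ≤ 1) :
    1 - ∑ p ∈ S, f p ≤ ∏ p ∈ S, (1 - f p) := by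
  induction S using Finset.induction_on with
  | empty => simp
  | insert m S hm ih =>
    rw [sum_insert hm, prod_insert hm]
    have h1 := ih fun p hp => h p (mem_insert_of_mem hp)
    have h2 := h m (mem_insert_self _ _)
    have h3 : 0 ≤ ∑ p ∈ S, f p := sum_nonneg fun p hp => (h p (mem_insert_of_mem hp)).1
    nlinarith [mul_le_mul_of_nonneg_left h1 (sub_nonneg.2 h2.2)]

lemma abund_lt {z : ℕ} (hz : z ≠ 0) (h : ∑ p ∈ z.primeFactors, (1 / p : ℝ) < 1 / 2) :
    sigma 1 z < 2 * z := by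
  have h0 : ∀ p ∈ z.primeFactors, 0 ≤ (1 / p : ℝ) ∧ (1 / p : ℝ) ≤ 1 := fun p hp =>
    ⟨by positivity, by
      rw [div_le_one (by exact_mod_cast (Nat.prime_of_mem_primeFactors hp).pos)]
      exact_mod_cast (Nat.prime_of_mem_primeFactors hp).one_le⟩
  have h1 := one_sub_sum_le _ _ h0
  have h2 : (sigma 1 z : ℝ) * ∏ p ∈ z.primeFactors, (1 - 1 / p : ℝ) ≤ z := by
    conv_rhs => rw [← Nat.prod_factorization_pow_eq_self hz, Finsupp.prod,
      Nat.support_factorization]
    rw [sigma_eq_prod hz subset_rfl]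
    push_cast
    rw [← prod_mul_distrib]
    refine prod_le_prod (fun p hp => mul_nonneg (by positivity) (sub_nonneg.2 (h0 p hp).2))
      fun p hp => ?_
    have hp' := Nat.prime_of_mem_primeFactors hp
    have h3 : (0 : ℝ) < p := by exact_mod_cast hp'.pos
    rw [sigma_one_apply_prime_pow hp', one_sub_div h3.ne', ← mul_div_assoc, div_le_iff₀ h3]
    push_cast
    rw [geom_sum_mul, pow_succ]
    linarith
  have h3 : (0 : ℝ) < sigma 1 z := by exact_mod_cast sigma_pos _ _ hz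
  have h4 : (sigma 1 z : ℝ) < 2 * z := by nlinarith [mul_le_mul_of_nonneg_left h1 h3.le]
  exact_mod_cast h4

lemma recip_le {l : ℝ} (hl : 0 < l) (j : ℕ) : ∀ (y : ℕ) (S : Finset ℕ), 0 < y → l ≤ Real.log y →
    (∀ p ∈ S, p.Prime ∧ y < p) →
    ∑ p ∈ S, (1 / p : ℝ) ≤ j * (4 * Real.log 2 / l) + S.card / (2 ^ j * y) := by
  have h0 : ∀ (y : ℕ) (S : Finset ℕ), 0 < y → (∀ p ∈ S, y < p) →
      ∑ p ∈ S, (1 / p : ℝ) ≤ S.card / y := fun y S hy h => by
    refine (sum_le_card_nsmul _ _ (1 / y : ℝ) fun p hp => ?_).trans (le_of_eq ?_)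
    · exact one_div_le_one_div_of_le (by exact_mod_cast hy) (by exact_mod_cast (h p hp).le)
    · rw [nsmul_eq_mul, mul_one_div]
  induction j with
  | zero => intro y S hy _ h; simpa using h0 y S hy fun p hp => (h p hp).2
  | succ j ih =>
    intro y S hy h1 h
    have hy' : (0 : ℝ) < y := by exact_mod_cast hy
    rw [← sum_filter_add_sum_filter_not S (2 * y < ·)]
    have h2 := ih (2 * y) (S.filter (2 * y < ·)) (by omega)
      (h1.trans (Real.log_le_log hy' (by push_cast; linarith)))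
      fun p hp => ⟨(h p (mem_filter.1 hp).1).1, (mem_filter.1 hp).2⟩
    have h3 := h0 y (S.filter fun p => ¬ 2 * y < p) hy fun p hp => (h p (mem_filter.1 hp).1).2
    have h4 : y ^ (S.filter fun p => ¬ 2 * y < p).card ≤ 4 ^ (2 * y) := by
      refine le_trans ?_ (primorial_le_four_pow _)
      refine le_trans (pow_card_le_prod _ (fun p => p) _ fun p hp => (h p (mem_filter.1 hp).1).2.le)
        (prod_le_prod_of_subset_of_one_le' (fun p hp => ?_) fun p hp _ => ?_)
      · exact Nat.mem_primesLE.2 ⟨not_lt.1 (mem_filter.1 hp).2, (h p (mem_filter.1 hp).1).1⟩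
      · exact (Nat.mem_primesLE.1 hp).2.one_le
    have h5 := Real.log_le_log (by positivity) (show ((y : ℝ)) ^ (S.filter fun p => ¬ 2 * y < p).card
      ≤ 2 ^ (2 * (2 * y)) by rw [pow_mul]; exact_mod_cast h4)
    rw [Real.log_pow, Real.log_pow] at h5
    have h6 : ((S.filter fun p => ¬ 2 * y < p).card : ℝ) / y ≤ 4 * Real.log 2 / l := by
      rw [div_le_div_iff₀ hy' hl]
      push_cast at h5
      nlinarith [mul_le_mul_of_nonneg_left h1 (Nat.cast_nonneg (α := ℝ)
        (S.filter fun p => ¬ 2 * y < p).card)]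
    have h7 : ((S.filter (2 * y < ·)).card : ℝ) / (2 ^ j * (2 * y : ℕ)) ≤
        S.card / (2 ^ (j + 1) * y) := by
      rw [pow_succ, mul_assoc]
      push_cast
      gcongr
      exact filter_subset _ _
    push_cast at h2 h7 ⊢
    linarith

lemma weights {α β : ℝ} (h0 : 0 ≤ α) (h1 : α ≤ β) (h2 : α * β + α ^ 2 ≤ 1) (h3 : β ^ 2 + α ^ 4 ≤ 1)
    (h4 : β + α ^ 6 ≤ 1) (v : ℕ) :
    ∑ k ∈ range (v + 1), (if k = 0 ∨ k = 3 ∨ k = 5 then 0 else α ^ k * β ^ (v - k)) ≤ 1 := by
  have b0 : 0 ≤ β := h0.trans h1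
  have b1 : β ≤ 1 := by nlinarith [pow_nonneg h0 6]
  have step : ∀ v, ∑ k ∈ range (v + 1 + 1),
      (if k = 0 ∨ k = 3 ∨ k = 5 then 0 else α ^ k * β ^ (v + 1 - k)) = β * ∑ k ∈ range (v + 1),
        (if k = 0 ∨ k = 3 ∨ k = 5 then 0 else α ^ k * β ^ (v - k)) +
          (if v = 2 ∨ v = 4 then 0 else α ^ (v + 1)) := fun v => by
    rw [sum_range_succ, mul_sum]
    congr 1
    · refine sum_congr rfl fun k hk => ?_
      rw [Nat.sub_add_comm (Nat.lt_succ_iff.1 (mem_range.1 hk)), pow_succ]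
      split_ifs <;> ring
    · simp
  induction v with
  | zero => simp
  | succ v ih =>
    rcases lt_or_ge v 5 with hv | hv
    · interval_cases v <;> simp only [step] <;> simp <;> nlinarith [mul_le_mul_of_nonneg_left h2 b0,
        mul_le_mul_of_nonneg_left h2 (sq_nonneg β), mul_le_mul_of_nonneg_left h3 b0,
        mul_le_mul_of_nonneg_left h2 (pow_nonneg b0 3)]
    · rw [step, if_neg (by omega)]
      have := pow_le_pow_of_le_one h0 (h1.trans b1) (show 6 ≤ v + 1 by omega)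
      nlinarith

lemma pow_sum_le {t y : ℕ} (ht : t ≠ 0) {P : Finset ℕ} (hP : ∀ p ∈ P, p.Prime ∧ y < p) :
    y ^ ∑ p ∈ P, t.factorization p ≤ t := by
  refine le_trans ?_ (Nat.le_of_dvd (Nat.pos_of_ne_zero ht) (prod_dvd_of_isRelPrime
    (fun p hp p' hp' h => Nat.coprime_iff_isRelPrime.1
      (Nat.coprime_pow_primes _ _ (hP p hp).1 (hP p' hp').1 h)) fun p _ => Nat.ordProj_dvd t p))
  rw [← prod_pow_eq_pow_sum]
  exact prod_le_prod' fun p hp => Nat.pow_le_pow_left (hP p hp).2.le _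

/-- the class of an exponent -/
def cl (a : ℕ) : ℕ := if a = 3 then 1 else if a = 5 then 2 else a

lemma cl_spec (a : ℕ) : (a = 3 ∧ cl a = 1) ∨ (a = 5 ∧ cl a = 2) ∨ (a ≠ 3 ∧ a ≠ 5 ∧ cl a = a) := by
  unfold cl
  split_ifs <;> omega

lemma large_le {α β : ℝ} (h0 : 0 ≤ α) (h1 : α ≤ β) (h2 : α * β + α ^ 2 ≤ 1) (h3 : β ^ 2 + α ^ 4 ≤ 1)
    (h4 : β + α ^ 6 ≤ 1) {m y K : ℕ} (hm : m ≠ 0) (hK : ∀ k, y ^ (2 * k) ≤ 2 * m → k ≤ K)
    (Z : Finset ℕ) (hZ : ∀ z ∈ Z, z * sigma 1 z = m) (hy : ∀ z ∈ Z, ∀ p ∈ z.primeFactors, y < p)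
    (hab : ∀ z ∈ Z, sigma 1 z < 2 * z) : Z.card * (α * β) ^ K ≤ 1 := by
  have b0 : 0 ≤ β := h0.trans h1
  have b1 : β ≤ 1 := by nlinarith [pow_nonneg h0 6]
  set P := m.primeFactors.filter (y < ·) with hP
  have hPp : ∀ p ∈ P, p.Prime ∧ y < p := fun p hp =>
    ⟨Nat.prime_of_mem_primeFactors (mem_filter.1 hp).1, (mem_filter.1 hp).2⟩
  have z0 : ∀ z ∈ Z, z ≠ 0 := fun z hz h => hm (by rw [← hZ z hz, h, zero_mul])
  have hv : ∀ z ∈ Z, ∀ p, m.factorization p = z.factorization p + (sigma 1 z).factorization p :=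
    fun z hz p => by
      rw [← hZ z hz, Nat.factorization_mul (z0 z hz) (sigma_pos _ _ (z0 z hz)).ne']
      rfl
  have hcl : ∀ a, cl a ≤ a := fun a => by have := cl_spec a; omega
  have k := kraft0 (fun z p => cl (z.factorization p))
    (fun p k => if k = 0 ∨ k = 3 ∨ k = 5 then 0 else α ^ k * β ^ (m.factorization p - k))
    (fun p => range (m.factorization p + 1)) (fun p k => by split_ifs <;> positivity)
    (fun p => weights h0 h1 h2 h3 h4 _) P Z
    (fun z hz p _ => mem_range.2 (by have := hv z hz p; have := hcl (z.factorization p); omega))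
    (fun z hz z' hz' h => pair_eq (z0 z hz) (z0 z' hz') ((hZ z hz).trans (hZ z' hz').symm)
      (hab z hz) (hab z' hz') fun p hp => by
        by_cases e : z.factorization p = 0
        · simp [e]
        have e1 : p ∈ z.primeFactors := by
          rwa [← Nat.support_factorization, Finsupp.mem_support_iff]
        have e2 := h p (mem_filter.2 ⟨Nat.primeFactors_mono ⟨_, (hZ z hz).symm⟩ hm e1,
          hy z hz p e1⟩)
        generalize z.factorization p = a at e2
        generalize z'.factorization p = b at e2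
        have : a = 0 ∨ b = 0 ∨ a = b ∨ (a = 1 ∧ b = 3) ∨ (a = 3 ∧ b = 1) ∨ (a = 2 ∧ b = 5) ∨
            (a = 5 ∧ b = 2) := by
          have := cl_spec a
          have := cl_spec b
          omega
        rcases this with rfl | rfl | rfl | ⟨rfl, rfl⟩ | ⟨rfl, rfl⟩ | ⟨rfl, rfl⟩ | ⟨rfl, rfl⟩ <;> simp)
  rw [← nsmul_eq_mul]
  refine le_trans (card_nsmul_le_sum _ _ _ fun z hz => ?_) k
  have s1 := self_le_sigma (z0 z hz)
  have a1 : ∑ p ∈ P, z.factorization p ≤ K := hK _ (by
    have := pow_sum_le (z0 z hz) hPp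
    rw [two_mul, pow_add, ← hZ z hz]
    exact (Nat.mul_le_mul this (this.trans s1)).trans (by omega))
  have a2 : ∑ p ∈ P, (sigma 1 z).factorization p ≤ K := hK _ (by
    have := pow_sum_le (sigma_pos 1 _ (z0 z hz)).ne' hPp
    rw [two_mul, pow_add, ← hZ z hz, ← mul_assoc]
    exact Nat.mul_le_mul (this.trans (hab z hz).le) this)
  calc (α * β) ^ K ≤ α ^ (∑ p ∈ P, z.factorization p) * β ^ ∑ p ∈ P, (sigma 1 z).factorization p := by
        rw [mul_pow]
        exact mul_le_mul (pow_le_pow_of_le_one h0 (h1.trans b1) a1) (pow_le_pow_of_le_one b0 b1 a2)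
          (by positivity) (by positivity)
    _ = ∏ p ∈ P, α ^ z.factorization p * β ^ (sigma 1 z).factorization p := by
        rw [prod_mul_distrib, prod_pow_eq_pow_sum, prod_pow_eq_pow_sum]
    _ ≤ _ := by
        refine prod_le_prod (fun _ _ => by positivity) fun p _ => ?_
        rw [hv z hz p]
        generalize z.factorization p = a
        generalize (sigma 1 z).factorization p = b
        obtain ⟨d, hd⟩ := Nat.exists_eq_add_of_le (hcl a)
        split_ifs with c1 c2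
        · exact mul_le_one₀ (pow_le_one₀ h0 (h1.trans b1)) (by positivity) (pow_le_one₀ b0 b1)
        · exfalso
          have := cl_spec a
          omega
        · rw [show a + b - cl a = d + b by omega, pow_add, ← mul_assoc]
          conv_lhs => rw [hd, pow_add]
          gcongr

theorem card_le' {α β : ℝ} (h0 : 0 ≤ α) (h1 : α ≤ β) (h2 : α * β + α ^ 2 ≤ 1)
    (h3 : β ^ 2 + α ^ 4 ≤ 1) (h4 : β + α ^ 6 ≤ 1) {n y K j : ℕ} (hn : n ≠ 0) (hy : 2 ≤ y)
    (hK : ∀ k, y ^ (2 * k) ≤ 2 * n → k ≤ K)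
    (hj : j * (4 * Real.log 2 / Real.log y) + K / (2 ^ j * y) < 1 / 2)
    (X : Finset ℕ) (hX : ∀ x ∈ X, x * sigma 1 x = n) :
    X.card * (α * β) ^ K ≤ (Nat.log 2 n + 1) ^ (y + 1) := by
  classical
  have x0 : ∀ x ∈ X, x ≠ 0 := fun x hx h => hn (by rw [← hX x hx, h, zero_mul])
  let s : ℕ → ℕ := fun x => ∏ p ∈ range (y + 1), p ^ x.factorization p
  let z : ℕ → ℕ := fun x => ∏ p ∈ x.primeFactors with y < p, p ^ x.factorization p
  have e1 : ∀ x ∈ X, s x * z x = x := fun x hx => by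
    conv_rhs => rw [← Nat.prod_factorization_pow_eq_self (x0 x hx), Finsupp.prod,
      Nat.support_factorization, ← prod_filter_not_mul_prod_filter _ (y < ·)]
    congr 1
    refine (prod_subset (fun p hp => mem_range.2 (by have := (mem_filter.1 hp).2; omega))
      fun p hp hp' => ?_).symm
    have : p ∉ x.primeFactors := fun h => hp' (mem_filter.2 ⟨h, by have := mem_range.1 hp; omega⟩)
    rw [← Nat.support_factorization, Finsupp.notMem_support_iff] at this
    simp [this]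
  have e2 : ∀ x, ∀ p ∈ (z x).primeFactors, y < p := fun x p hp => by
    have hp' := Nat.prime_of_mem_primeFactors hp
    obtain ⟨q, hq, h⟩ := (Prime.dvd_finsetProd_iff hp'.prime _).1 (Nat.dvd_of_mem_primeFactors hp)
    rw [(Nat.prime_dvd_prime_iff_eq hp' (Nat.prime_of_mem_primeFactors (mem_filter.1 hq).1)).1
      (hp'.dvd_of_dvd_pow h)]
    exact (mem_filter.1 hq).2
  have e3 : ∀ x ∈ X, s x * sigma 1 (s x) * (z x * sigma 1 (z x)) = n := fun x hx => by
    have hco : (s x).Coprime (z x) := by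
      refine Nat.Coprime.prod_left fun q hq => Nat.Coprime.prod_right fun p hp => ?_
      by_cases h : q.Prime
      · refine Nat.coprime_pow_primes _ _ h (Nat.prime_of_mem_primeFactors (mem_filter.1 hp).1) ?_
        have := mem_range.1 hq
        have := (mem_filter.1 hp).2
        omega
      · simp [Nat.factorization_eq_zero_of_not_prime _ h]
    rw [← hX x hx]
    conv_rhs => rw [← e1 x hx, isMultiplicative_sigma.map_mul_of_coprime hco]
    ring
  have fib : ∀ Y ⊆ X, (∀ x ∈ Y, ∀ x' ∈ Y, s x = s x') → Y.card * (α * β) ^ K ≤ 1 := by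
    intro Y hY hs
    rcases Y.eq_empty_or_nonempty with rfl | ⟨x1, hx1⟩
    · simp
    have n1 := e3 x1 (hY hx1)
    have n2 : s x1 * sigma 1 (s x1) ≠ 0 := left_ne_zero_of_mul (n1 ▸ hn)
    have n3 : z x1 * sigma 1 (z x1) ≤ n := n1 ▸ Nat.le_mul_of_pos_left _ (Nat.pos_of_ne_zero n2)
    have n4 : ∀ x ∈ Y, z x * sigma 1 (z x) = z x1 * sigma 1 (z x1) := fun x hx =>
      Nat.eq_of_mul_eq_mul_left (Nat.pos_of_ne_zero n2) (by rw [n1, ← hs x hx x1 hx1, e3 x (hY hx)])
    rw [← card_image_of_injOn (f := z) fun x hx x' hx' h => by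
      rw [← e1 x (hY hx), ← e1 x' (hY hx'), h, hs x hx x' hx']]
    refine large_le h0 h1 h2 h3 h4 (right_ne_zero_of_mul (n1 ▸ hn))
      (fun k hk => hK k (hk.trans (Nat.mul_le_mul_left _ n3))) _ (fun w hw => ?_) (fun w hw => ?_)
      fun w hw => ?_
    all_goals obtain ⟨x, hx, rfl⟩ := mem_image.1 hw
    · exact n4 x hx
    · exact e2 x
    have z0 : z x ≠ 0 := right_ne_zero_of_mul ((e1 x (hY hx)).symm ▸ x0 x (hY hx))
    have hP : ∀ p ∈ (z x).primeFactors, p.Prime ∧ y < p := fun p hp =>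
      ⟨Nat.prime_of_mem_primeFactors hp, e2 x p hp⟩
    refine abund_lt z0 ((recip_le (Real.log_pos (by exact_mod_cast hy)) j y _ (by omega) le_rfl
      hP).trans_lt (lt_of_le_of_lt ?_ hj))
    have c1 : (z x).primeFactors.card ≤ K := by
      refine le_trans ?_ (hK (∑ p ∈ (z x).primeFactors, (z x).factorization p) ?_)
      · rw [card_eq_sum_ones]
        exact sum_le_sum fun p hp => (hP p hp).1.factorization_pos_of_dvd z0
          (Nat.dvd_of_mem_primeFactors hp)
      · have := pow_sum_le z0 hP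
        rw [two_mul, pow_add]
        have := Nat.mul_le_mul this (this.trans (self_le_sigma z0))
        have := n4 x hx
        omega
    gcongr
  set B := Fintype.piFinset fun _ : Fin (y + 1) => range (Nat.log 2 n + 1) with hB
  have m1 : ∀ x ∈ X, (fun q : Fin (y + 1) => x.factorization q) ∈ B := fun x hx => by
    refine Fintype.mem_piFinset.2 fun q => mem_range.2 (Nat.lt_succ_of_le ?_)
    by_cases hq : (q : ℕ).Prime
    · refine Nat.le_log_of_pow_le one_lt_two ((Nat.pow_le_pow_left hq.two_le _).trans ?_)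
      exact Nat.le_of_dvd (Nat.pos_of_ne_zero hn) ((Nat.ordProj_dvd x q).trans ⟨_, (hX x hx).symm⟩)
    · simp [Nat.factorization_eq_zero_of_not_prime _ hq]
  rw [card_eq_sum_card_fiberwise m1]
  push_cast
  rw [sum_mul]
  refine (sum_le_card_nsmul _ _ 1 fun b _ => fib _ (filter_subset _ _) fun x hx x' hx' =>
    prod_congr rfl fun q hq => ?_).trans (by simp [hB])
  rw [congrFun ((mem_filter.1 hx).2.trans (mem_filter.1 hx').2.symm) ⟨q, mem_range.1 hq⟩]

end Pool.Agent.Lib.MP_253cbc_nt
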