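import Mathlib

/-!
From a family of simultaneous primes with a product identity to many solutions of
`x σ(x) = n`.
-/

namespace Pool.Agent.Lib.MP_253cbc_nt.H60

open Finset Filter

/-- the number of solutions of `x σ(x) = n` -/
def cnt (n : ℕ) : ℕ := ((range (n + 1)).filter fun x => x * ArithmeticFunction.sigma 1 x = n).card

/-- `p ^ a σ(p ^ a)` for a prime `p` -/
def hv (p a : ℕ) : ℕ := p ^ a * ∑ j ∈ range (a + 1), p ^ j

lemma mul_sigma_prod {ι : Type*} (s : Finset ι) (p e : ι → ℕ) (hp : ∀ i ∈ s, (p i).Prime)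
    (hi : Set.InjOn p s) : (∏ i ∈ s, p i ^ e i) * ArithmeticFunction.sigma 1 (∏ i ∈ s, p i ^ e i) =
      ∏ i ∈ s, hv (p i) (e i) := by
  rw [ArithmeticFunction.isMultiplicative_sigma.map_prod _ _ fun i hi' j hj hij =>
    Nat.coprime_pow_primes _ _ (hp i hi') (hp j hj) fun h => hij (hi hi' hj h), ← prod_mul_distrib]
  exact prod_congr rfl fun i h => by rw [ArithmeticFunction.sigma_one_apply_prime_pow (hp i h), hv]

lemma fact_prod {ι : Type*} (s : Finset ι) (p e : ι → ℕ) (hp : ∀ i ∈ s, (p i).Prime)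
    (hi : Set.InjOn p s) {j : ι} (hj : j ∈ s) :
    (∏ i ∈ s, p i ^ e i).factorization (p j) = e j := by
  rw [Nat.factorization_prod_apply fun i h => pow_ne_zero _ (hp i h).ne_zero, sum_eq_single j]
  · rw [(hp j hj).factorization_pow, Finsupp.single_eq_same]
  · intro i h hij
    rw [(hp i h).factorization_pow, Finsupp.single_eq_of_ne fun e => hij (hi h hj e.symm)]
  · exact fun h => absurd hj h

lemma hv_le {p a V : ℕ} (hp : 2 ≤ p) (hV : p ≤ V) (ha : a ≤ 5) : hv p a ≤ V ^ 11 := by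
  have h1 : ∑ j ∈ range (a + 1), p ^ j ≤ p ^ (a + 1) :=
    (Nat.geomSum_lt hp fun k hk => mem_range.1 hk).le
  calc hv p a ≤ p ^ a * p ^ (a + 1) := Nat.mul_le_mul_left _ h1
    _ = p ^ (a + (a + 1)) := (pow_add _ _ _).symm
    _ ≤ p ^ 11 := Nat.pow_le_pow_right (by omega) (by omega)
    _ ≤ V ^ 11 := Nat.pow_le_pow_left hV _

variable {k : ℕ} {g : Fin k → ℕ → ℕ} {a b : Fin k → ℕ}

lemma exists_indep (hg : ∀ i, Function.Injective (g i)) {X : Finset ℕ}
    (hX : ∀ t ∈ X, Function.Injective fun i => g i t) (m : ℕ) (hm : (k * k + 1) * m ≤ X.card) :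
    ∃ Y ⊆ X, Y.card = m ∧ Set.InjOn (fun z : ℕ × Fin k => g z.2 z.1) (Y ×ˢ univ : Finset (ℕ × Fin k)) := by
  induction m with
  | zero => exact ⟨∅, empty_subset _, rfl, by simp⟩
  | succ m ih =>
    obtain ⟨Y, h1, h2, h3⟩ := ih ((Nat.mul_le_mul_left _ m.le_succ).trans hm)
    obtain ⟨Z, hZ⟩ : ∃ Z, Z = Y ∪ ((Y ×ˢ (univ : Finset (Fin k × Fin k))).biUnion fun z =>
      X.filter fun t => g z.2.1 t = g z.2.2 z.1) := ⟨_, rfl⟩
    have h4 : Z.card < X.card := by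
      have h5 := card_biUnion_le_card_mul (Y ×ˢ (univ : Finset (Fin k × Fin k)))
        (fun z => X.filter fun t => g z.2.1 t = g z.2.2 z.1) 1 fun z _ =>
          card_le_one.2 fun s hs t ht => hg _ ((mem_filter.1 hs).2.trans (mem_filter.1 ht).2.symm)
      rw [card_product, card_univ, Fintype.card_prod, Fintype.card_fin, h2] at h5
      have h6 := hZ ▸ card_union_le Y _
      nlinarith
    obtain ⟨t, ht, ht'⟩ := exists_mem_notMem_of_card_lt_card h4
    rw [hZ, mem_union, not_or, mem_biUnion] at ht'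
    have h7 : ∀ s ∈ Y, ∀ i j, g i t ≠ g j s := fun s hs i j h =>
      ht'.2 ⟨(s, i, j), by simpa using hs, mem_filter.2 ⟨ht, h⟩⟩
    refine ⟨insert t Y, insert_subset ht h1, by rw [card_insert_of_notMem ht'.1, h2], ?_⟩
    rintro ⟨s, i⟩ hs ⟨r, j⟩ hr h
    simp only [coe_product, coe_insert, coe_univ, Set.mem_prod, Set.mem_insert_iff, mem_coe,
      Set.mem_univ, and_true] at hs hr
    rcases hs with rfl | hs <;> rcases hr with rfl | hr
    · exact Prod.ext rfl (hX _ ht h)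
    · exact absurd h (h7 _ hr _ _)
    · exact absurd h.symm (h7 _ hs _ _)
    · exact h3 (by simpa using hs) (by simpa using hr) h

lemma many_solutions {α β V m : ℕ} (hα : 0 < α) (ha : ∀ i, a i ≤ 5) (hb : ∀ i, b i ≤ 5)
    (hid : ∀ t, α * ∏ i, hv (g i t) (a i) = β * ∏ i, hv (g i t) (b i)) {i₀ : Fin k}
    (h₀ : a i₀ ≠ b i₀) {Y : Finset ℕ} (hY : Y.card = 2 * m) (hp : ∀ t ∈ Y, ∀ i, (g i t).Prime)
    (hV : ∀ t ∈ Y, ∀ i, g i t ≤ V)
    (hi : Set.InjOn (fun z : ℕ × Fin k => g z.2 z.1) (Y ×ˢ univ : Finset (ℕ × Fin k))) :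
    ∃ n, n ≤ V ^ (22 * k * m) ∧ 2 ^ m ≤ cnt n := by
  obtain ⟨e, he⟩ : ∃ e : Finset ℕ → ℕ × Fin k → ℕ,
    e = fun S z => if z.1 ∈ S then a z.2 else b z.2 := ⟨_, rfl⟩
  obtain ⟨x, hx⟩ : ∃ x : Finset ℕ → ℕ,
    x = fun S => ∏ z ∈ Y ×ˢ univ, g z.2 z.1 ^ e S z := ⟨_, rfl⟩
  have hp' : ∀ z ∈ Y ×ˢ (univ : Finset (Fin k)), (g z.2 z.1).Prime := fun z hz =>
    hp _ (mem_product.1 hz).1 _
  have h1 : ∀ S, x S * ArithmeticFunction.sigma 1 (x S) =
      ∏ z ∈ Y ×ˢ univ, hv (g z.2 z.1) (e S z) := fun S => hx ▸ mul_sigma_prod _ _ _ hp' hi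
  have h2 : ∀ S ∈ powersetCard m Y, α ^ m * (x S * ArithmeticFunction.sigma 1 (x S)) =
      β ^ m * ∏ t ∈ Y, ∏ i, hv (g i t) (b i) := fun S hS => by
    obtain ⟨s1, s2⟩ := mem_powersetCard.1 hS
    rw [h1, prod_product, ← prod_sdiff s1, ← prod_sdiff s1, mul_left_comm, mul_left_comm (β ^ m),
      ← s2, ← prod_const, ← prod_const, ← prod_mul_distrib, ← prod_mul_distrib]
    congr 1
    · exact prod_congr rfl fun t ht => by simp only [he, if_neg (mem_sdiff.1 ht).2]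
    · exact prod_congr rfl fun t ht => by simp only [he, if_pos ht, hid]
  obtain ⟨S₀, hS₀⟩ := powersetCard_nonempty.2 (show m ≤ Y.card by omega)
  refine ⟨x S₀ * ArithmeticFunction.sigma 1 (x S₀), ?_, ?_⟩
  · rw [h1]
    refine (prod_le_pow_card _ _ (V ^ 11) fun z hz => hv_le (hp' z hz).two_le
      (hV _ (mem_product.1 hz).1 _) (by rw [he]; dsimp only; split_ifs; exacts [ha _, hb _])).trans_eq ?_
    rw [card_product, hY, card_univ, Fintype.card_fin, ← pow_mul]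
    congr 1
    ring
  · have h3 : 2 ^ m ≤ (powersetCard m Y).card := by
      rw [card_powersetCard, hY, ← Nat.centralBinom_eq_two_mul_choose]
      clear * -
      induction m with
      | zero => simp
      | succ m ih =>
        refine Nat.le_of_mul_le_mul_left ?_ m.succ_pos
        rw [Nat.succ_mul_centralBinom_succ, pow_succ]
        nlinarith
    refine h3.trans (card_le_card_of_injOn x (fun S hS => ?_) fun S hS T hT h => ?_)
    · have h4 := Nat.eq_of_mul_eq_mul_left (pow_pos hα m) ((h2 S hS).trans (h2 S₀ hS₀).symm)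
      have h5 : x S ≠ 0 := hx ▸ prod_ne_zero_iff.2 fun z hz => pow_ne_zero _ (hp' z hz).ne_zero
      refine mem_filter.2 ⟨mem_range.2 (Nat.lt_succ_of_le ?_), h4⟩
      rw [← h4]
      exact Nat.le_mul_of_pos_right _ (ArithmeticFunction.sigma_pos _ _ h5)
    · have h4 : ∀ t ∈ Y, (t ∈ S ↔ t ∈ T) := fun t ht => by
        have hz : (t, i₀) ∈ Y ×ˢ (univ : Finset (Fin k)) := mem_product.2 ⟨ht, mem_univ _⟩
        have h5 := fact_prod _ _ (e S) hp' hi hz
        have h6 := fact_prod _ _ (e T) hp' hi hz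
        rw [hx] at h
        dsimp only at h
        rw [h, h6, he] at h5
        by_contra h7
        by_cases h8 : t ∈ S <;> by_cases h9 : t ∈ T <;> simp_all
      exact Finset.ext fun t => ⟨fun ht => (h4 t ((mem_powersetCard.1 hS).1 ht)).1 ht,
        fun ht => (h4 t ((mem_powersetCard.1 hT).1 ht)).2 ht⟩

lemma not_small {c : ℕ → ℕ} {K C : ℕ} (hK : 0 < K) (hC : 0 < C)
    (h : ∀ x, 2 ≤ x → ∀ m, K * (m + 1) ≤ c x → ∃ n, n ≤ x ^ (C * m) ∧ 2 ^ m ≤ cnt n) {δ : ℝ}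
    (hδ : 0 < δ) (hc : ∃ᶠ x : ℕ in atTop, (x : ℝ) ^ δ ≤ c x) :
    ¬∀ ε : ℝ, 0 < ε → ∃ N : ℕ, ∀ n : ℕ, N ≤ n →
      (cnt n : ℝ) < (n : ℝ) ^ (ε / Real.log (Real.log (n : ℝ))) := fun H => by
  have l2 : 1 / 2 < Real.log 2 := by linarith [Real.log_two_gt_d9]
  have hC' : (0 : ℝ) < C := Nat.cast_pos.2 hC
  have hK' : (0 : ℝ) < K := Nat.cast_pos.2 hK
  obtain ⟨N, hN⟩ := H (δ / (4 * C)) (by positivity)
  have t1 := (tendsto_rpow_atTop (half_pos hδ)).comp (tendsto_natCast_atTop_atTop (R := ℝ))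
  obtain ⟨x, x1, x2, x3⟩ := (hc.and_eventually ((eventually_ge_atTop 2).and
    (t1.eventually (eventually_ge_atTop (8 * K + N + 8 : ℝ))))).exists
  dsimp only [Function.comp] at x3
  have x0 : (1 : ℝ) < x := by exact_mod_cast x2
  obtain ⟨y, hy⟩ : ∃ y, y = (x : ℝ) ^ (δ / 2) := ⟨_, rfl⟩
  rw [← add_halves δ, Real.rpow_add (by linarith), ← hy] at x1
  rw [← hy] at x3
  have hN0 : (0 : ℝ) ≤ N := Nat.cast_nonneg N
  obtain ⟨m, m1, m2⟩ : ∃ m : ℕ, K * (m + 1) ≤ c x ∧ 4 * y ≤ m := by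
    refine ⟨⌈4 * y⌉₊, ?_, Nat.le_ceil _⟩
    have := Nat.ceil_lt_add_one (show 0 ≤ 4 * y by linarith)
    rw [← Nat.cast_le (α := ℝ)]
    push_cast
    nlinarith
  obtain ⟨n, n1, n2⟩ := h x x2 m m1
  have n3 : 2 ^ m ≤ n + 1 := n2.trans ((card_filter_le _ _).trans_eq (card_range _))
  have n4 : (m : ℝ) ≤ n := by exact_mod_cast Nat.le_of_lt_succ (m.lt_two_pow_self.trans_le n3)
  have n0 : (0 : ℝ) < n := by linarith
  have n5 : y ≤ Real.log n := by
    have h1 : (2 : ℝ) ^ m ≤ 2 * n := by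
      have : ((2 ^ m : ℕ) : ℝ) ≤ (n + 1 : ℕ) := Nat.cast_le.2 n3
      push_cast at this
      linarith
    have h2 := Real.log_le_log (by positivity) h1
    rw [Real.log_pow, Real.log_mul two_ne_zero n0.ne'] at h2
    nlinarith [Real.log_two_lt_d9]
  have n6 : δ / 2 * Real.log x ≤ Real.log (Real.log n) := by
    rw [← Real.log_rpow (by linarith), ← hy]
    exact Real.log_le_log (by linarith) n5
  have n7 : Real.log n ≤ C * m * Real.log x := by
    have h1 := Real.log_le_log n0 (show (n : ℝ) ≤ (x : ℝ) ^ (C * m) by exact_mod_cast n1)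
    rwa [Real.log_pow, Nat.cast_mul] at h1
  have lx := Real.log_pos x0
  have n8 := hN n (Nat.cast_le.1 (show (N : ℝ) ≤ n by linarith))
  have n9 : (2 : ℝ) ^ m < _ := (show (2 : ℝ) ^ m ≤ cnt n by exact_mod_cast n2).trans_lt n8
  rw [Real.rpow_def_of_pos n0, ← Real.log_lt_iff_lt_exp (by positivity), Real.log_pow,
    ← mul_div_assoc, lt_div_iff₀ (lt_of_lt_of_le (by positivity) n6)] at n9
  have m0 : (0 : ℝ) ≤ m := Nat.cast_nonneg m
  have h1 : Real.log n * (δ / (4 * C)) ≤ m * (1 / 2) * (δ / 2 * Real.log x) :=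
    (mul_le_mul_of_nonneg_right n7 (by positivity)).trans_eq (by field_simp; ring)
  have h2 : m * (1 / 2) * (δ / 2 * Real.log x) ≤ m * Real.log 2 * Real.log (Real.log n) := by
    gcongr
  linarith

end Pool.Agent.Lib.MP_253cbc_nt.H60
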