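import Pool.Agent.Lib.MP_253cbc_nt.H60Comb

/-!
Forty-eight polynomials `(((u + n) ^ 2 + G) ^ e + L) / m` with `u = u0 + md * t`, two exponent
vectors `a`, `b`, and the finite checks: divisibility, no fixed prime divisor, and the product
identity.
-/

namespace Pool.Agent.Lib.MP_253cbc_nt.H60

open Finset

/-- one polynomial of the family with its two exponents -/
structure Row where
  (n G e L m a b : ℕ)

def dat : List Row :=
  [⟨711, 1113718683741263, 1, 0, 288, 3, 5⟩,
   ⟨712, 1113718683741120, 1, 0, 236, 2, 1⟩,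
   ⟨711, 1113718683741239, 1, 0, 24, 1, 2⟩,
   ⟨709, 1113718683741255, 1, 0, 8, 2, 1⟩,
   ⟨711, 1113718683741119, 2, 62208, 82944, 1, 0⟩,
   ⟨711, 1113718683741119, 2, 145152, 4454874734819328, 0, 1⟩,
   ⟨712, 1113718683741238, 2, 41772, 55696, 0, 1⟩,
   ⟨712, 1113718683741238, 2, 97468, 4454874734867488, 1, 0⟩,
   ⟨711, 1113718683741251, 2, 432, 576, 1, 0⟩,
   ⟨711, 1113718683741251, 2, 1008, 17819498939859072, 0, 1⟩,
   ⟨709, 1113718683741259, 2, 48, 2368, 0, 1⟩,
   ⟨709, 1113718683741259, 2, 2416, 17819498939857792, 1, 0⟩,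
   ⟨711, 1113718683741407, 2, 62208, 800879560482458317824, 1, 0⟩,
   ⟨711, 1113718683741263, 2, 82944, 2252032731916473894912, 0, 1⟩,
   ⟨711, 2984728509512783, 1, 0, 288, 5, 3⟩,
   ⟨712, 2984728509512640, 1, 0, 236, 1, 2⟩,
   ⟨711, 2984728509512759, 1, 0, 24, 2, 1⟩,
   ⟨709, 2984728509512775, 1, 0, 8, 1, 2⟩,
   ⟨711, 2984728509512639, 2, 62208, 82944, 0, 1⟩,
   ⟨711, 2984728509512639, 2, 145152, 11938914037905408, 1, 0⟩,
   ⟨712, 2984728509512758, 2, 41772, 55696, 1, 0⟩,
   ⟨712, 2984728509512758, 2, 97468, 11938914037953568, 0, 1⟩,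
   ⟨711, 2984728509512771, 2, 432, 576, 0, 1⟩,
   ⟨711, 2984728509512771, 2, 1008, 47755656152203392, 1, 0⟩,
   ⟨709, 2984728509512779, 2, 48, 2368, 1, 0⟩,
   ⟨709, 2984728509512779, 2, 2416, 47755656152202112, 0, 1⟩,
   ⟨711, 2984728509512927, 2, 62208, 2146330210234061435904, 0, 1⟩,
   ⟨711, 2984728509512783, 2, 82944, 6035371764451852142592, 1, 0⟩,
   ⟨710, 1113718683741120, 1, 0, 5682038989304993131664010740736, 1, 0⟩,
   ⟨710, 2984728509512640, 1, 0, 5682038989304991260654184969216, 0, 1⟩,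
   ⟨712, 1113718683741356, 1, 0, 1871009830549104, 1, 0⟩,
   ⟨712, 2984728509512876, 1, 0, 4777584, 0, 1⟩,
   ⟨713, 1113718683741239, 1, 0, 762400627728551654581654139984, 0, 1⟩,
   ⟨713, 2984728509512759, 1, 0, 762400627728549783571828368464, 1, 0⟩,
   ⟨713, 1113718683741255, 1, 0, 4369453917508930535412631858163520, 1, 0⟩,
   ⟨713, 2984728509512775, 1, 0, 4369453917508930533541622032392000, 0, 1⟩,
   ⟨709, 1113718683741263, 1, 0, 1871009836827264, 1, 0⟩,
   ⟨709, 2984728509512783, 1, 0, 11055744, 0, 1⟩,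
   ⟨707, 1113718683741263, 1, 0, 6333849390248595147422221981544, 0, 1⟩,
   ⟨707, 2984728509512783, 1, 0, 6333849390248593276412396210024, 1, 0⟩,
   ⟨1135, 1113718683921183, 1, 0, 24164147362133609591975752972593698432, 0, 1⟩,
   ⟨1135, 2984728509692703, 1, 0, 24164147362133609591973881962767926912, 1, 0⟩,
   ⟨287, 1113718683921183, 1, 0, 1871009827303392, 0, 1⟩,
   ⟨287, 2984728509692703, 1, 0, 1531872, 1, 0⟩,
   ⟨1422, 1113718684246784, 1, 0, 127513715060252677539730613579512596679680, 1, 0⟩,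
   ⟨1422, 2984728510018304, 1, 0, 127513715060252677539730611708502770908160, 0, 1⟩,
   ⟨0, 1113718684246784, 1, 0, 1871009825818932, 1, 0⟩,
   ⟨0, 2984728510018304, 1, 0, 47412, 0, 1⟩]

def u0 : ℕ :=
  [3943025934274353657257311341992,
   63721995574332005089973340641957440889540113634175612710967982940345137510527499,
   75162144062239247976767810157734635231213209438076861204670023939965639932053034,
   18881043132293486624905207784878861559741774455111872751394610243845441732751452,
   7897788994670636879935877028848746102030342854872264349535515076609309896989197,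
   2734446820690456923073028717846172163984025441783207459217584370143369157913922].foldl
    (fun a b => a * 10 ^ 80 + b) 0

def md : ℕ :=
  [16444679829844684629179340731036,
   11128919777406771592021791340485325911026879922697940870787929306390345410403045,
   5731587213418042408030075161078855907582446091913210980757521150270099073862085,
   49666010716249949134135332284992655103038669861210288856459700909465138182504060,
   49384869086374329324481477956083283702371526969334146653144231456720105731719756,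
   91442251935332029629884258737344630089573589774920778118311853985770715812096000].foldl
    (fun a b => a * 10 ^ 80 + b) 0

def ev : List ℕ → ℕ → ℕ
  | [], _ => 0
  | c :: l, u => c + u * ev l u

def add : List ℕ → List ℕ → List ℕ
  | [], q => q
  | c :: p, [] => c :: p
  | c :: p, d :: q => (c + d) :: add p q

def mul : List ℕ → List ℕ → List ℕ
  | [], _ => []
  | c :: p, q => add (q.map (c * ·)) (0 :: mul p q)

def pw (p : List ℕ) : ℕ → List ℕ
  | 0 => [1]
  | a + 1 => mul p (pw p a)

def geo (p : List ℕ) (m : ℕ) : ℕ → List ℕ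
  | 0 => [1]
  | a + 1 => add (mul p (geo p m a)) [m ^ (a + 1)]

lemma ev_add (u : ℕ) : ∀ p q, ev (add p q) u = ev p u + ev q u
  | [], q => by simp [add, ev]
  | c :: p, [] => by simp [add, ev]
  | c :: p, d :: q => by simp only [add, ev, ev_add u p q]; ring

lemma ev_map (u c : ℕ) : ∀ q : List ℕ, ev (q.map (c * ·)) u = c * ev q u
  | [] => rfl
  | d :: q => by simp only [List.map, ev, ev_map u c q]; ring

lemma ev_mul (u : ℕ) (q : List ℕ) : ∀ p, ev (mul p q) u = ev p u * ev q u
  | [] => by simp [mul, ev]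
  | c :: p => by simp only [mul, ev_add, ev_map, ev, ev_mul u q p]; ring

lemma ev_pw (u : ℕ) (p : List ℕ) : ∀ a, ev (pw p a) u = ev p u ^ a
  | 0 => rfl
  | a + 1 => by rw [pw, ev_mul, ev_pw u p a, pow_succ']

lemma ev_geo {u m f : ℕ} {p : List ℕ} (h : ev p u = m * f) :
    ∀ a, ev (geo p m a) u = m ^ a * ∑ j ∈ range (a + 1), f ^ j
  | 0 => by simp [geo, ev]
  | a + 1 => by
    rw [geo, ev_add, ev_mul, ev_geo h a, h, geom_sum_succ (n := a + 1)]
    simp only [ev]
    ring

def Row.pv (r : Row) (u : ℕ) : ℕ := ((u + r.n) ^ 2 + r.G) ^ r.e + r.L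

def Row.pl (r : Row) : List ℕ := add (pw [r.n ^ 2 + r.G, 2 * r.n, 1] r.e) [r.L]

def Row.val (r : Row) (t : ℕ) : ℕ := r.pv (u0 + md * t) / r.m

lemma Row.ev_pl (r : Row) (u : ℕ) : ev r.pl u = r.pv u := by
  simp only [pl, pv, ev_add, ev_pw, ev]
  ring

def side (c : Row → ℕ) : List Row → List ℕ
  | [] => [1]
  | r :: l => mul (mul (pw r.pl (c r)) (geo r.pl r.m (c r))) (side c l)

lemma ev_side (c : Row → ℕ) (t : ℕ) : ∀ l : List Row,
    (∀ r ∈ l, r.pv (u0 + md * t) = r.m * r.val t) → ev (side c l) (u0 + md * t) =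
      (l.map fun r => r.m ^ (2 * c r)).prod * (l.map fun r => hv (r.val t) (c r)).prod
  | [], _ => rfl
  | r :: l, h => by
    have h1 := (r.ev_pl _).trans (h r List.mem_cons_self)
    rw [side, ev_mul, ev_mul, ev_pw, ev_geo h1, h1,
      ev_side c t l fun s hs => h s (List.mem_cons_of_mem _ hs)]
    simp only [List.map_cons, List.prod_cons, hv]
    ring

lemma side_eq : side Row.a dat = side Row.b dat := by decide +kernel

lemma dat_ok : ∀ r ∈ dat, 0 < r.G ∧ 0 < r.m ∧ md % r.m = 0 ∧ r.pv u0 % r.m = 0 ∧ r.a ≤ 5 ∧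
    r.b ≤ 5 ∧ (r.e = 1 ∧ r.L = 0 ∨ r.e = 2 ∧ 0 < r.L ∧ r.L ≤ 2 * r.G) := by decide +kernel

lemma md_pos : 0 < md := by decide +kernel

lemma dat_nodup : (dat.map fun r => r.val 0).Nodup := by decide +kernel

lemma dat_gcd : ((List.range 6).map fun t => (dat.map fun r => r.val t).prod).foldr Nat.gcd 0 = 1 := by
  decide +kernel

lemma dat_pos : 0 < dat.length := by decide +kernel

lemma dat_ne : (dat[0]'dat_pos).a ≠ (dat[0]'dat_pos).b := by decide +kernel

attribute [irreducible] dat u0 md

end Pool.Agent.Lib.MP_253cbc_nt.H60
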