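import Pool.Agent.Lib.MP_253cbc_nt.H60Data

/-!
The family of polynomials and the lower bound for the number of solutions of `x σ(x) = n` in
terms of the number of simultaneous prime values.
-/

namespace Pool.Agent.Lib.MP_253cbc_nt.H60

open Finset Polynomial

lemma irr_quartic {G L : ℕ} (hL : 0 < L) (hG : L ≤ 2 * G) :
    Irreducible ((X ^ 2 + C (G : ℚ)) ^ 2 + C (L : ℚ)) := by
  have hL' : (0 : ℚ) < L := Nat.cast_pos.2 hL
  have h0 : ((X ^ 2 + C (G : ℚ)) ^ 2 + C (L : ℚ)).IsMonicOfDegree 4 :=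
    ⟨by compute_degree!, by monicity!⟩
  refine h0.monic.irreducible_iff_natDegree'.2 ⟨fun h => ?_, fun f g hf hg h hd => ?_⟩
  · exact absurd (h ▸ h0.natDegree_eq) (by simp)
  have h1 := h0.natDegree_eq
  rw [h1, mem_Ioc] at hd
  rw [← h, hf.natDegree_mul hg] at h1
  have e := fun x : ℚ => congrArg (eval x) h
  obtain h2 | h2 : g.natDegree = 1 ∨ g.natDegree = 2 := by omega
  · have h3 := e (-g.coeff 0)
    rw [hg.eq_X_add_C h2] at h3
    simp only [eval_mul, eval_add, eval_pow, eval_X, eval_C, coeff_add, coeff_X_zero, coeff_C_zero,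
      zero_add, neg_add_cancel, mul_zero] at h3
    exact (by positivity : (0 : ℚ) < _).ne h3
  obtain ⟨a, b, rfl⟩ := isMonicOfDegree_two_iff.1 ⟨h2, hg⟩
  obtain ⟨c, d, rfl⟩ := isMonicOfDegree_two_iff.1 (⟨by omega, hf⟩ : f.IsMonicOfDegree 2)
  simp only [eval_mul, eval_add, eval_pow, eval_X, eval_C] at e
  have e0 : d * b = G ^ 2 + L := by linear_combination e 0
  have e3 : c = -a := by linear_combination (e 2 - e (-2)) / 12 - (e 1 - e (-1)) / 6
  subst e3
  have e1 : a * (d - b) = 0 := by linear_combination (e 1 - e (-1)) / 2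
  have e2 : b + d - a * a = 2 * G := by linear_combination (e 1 + e (-1)) / 2 - e 0
  rcases mul_eq_zero.1 e1 with h3 | h3
  · rw [h3] at e2
    have : (b - d) ^ 2 = -4 * L := by linear_combination (b + d + 2 * G) * e2 - 4 * e0
    nlinarith [sq_nonneg (b - d)]
  · obtain ⟨s, hs⟩ := Rat.isSquare_natCast_iff.1
      (⟨b, by push_cast; linear_combination b * h3 - e0⟩ : IsSquare ((G ^ 2 + L : ℕ) : ℚ))
    exact Nat.not_exists_sq (m := G) (by nlinarith) (by nlinarith) ⟨s, hs.symm⟩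

lemma irr_quad {G : ℕ} (hG : 0 < G) : Irreducible ((X ^ 2 + C (G : ℚ)) ^ 1 + C ((0 : ℕ) : ℚ)) := by
  have hG' : (0 : ℚ) < G := Nat.cast_pos.2 hG
  rw [pow_one, Nat.cast_zero, C_0, add_zero]
  refine irreducible_of_degree_le_three_of_not_isRoot
    (by rw [natDegree_X_pow_add_C]; decide) fun x hx => ?_
  simp only [IsRoot, eval_add, eval_pow, eval_X, eval_C] at hx
  exact (by positivity : (0 : ℚ) < _).ne' hx

lemma exists_poly {r : Row} (hr : r ∈ dat) : ∃ f : ℤ[X], Irreducible (f.map (Int.castRingHom ℚ)) ∧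
    0 < f.leadingCoeff ∧ ∀ t : ℕ, f.eval (t : ℤ) = r.val t ∧ r.pv (u0 + md * t) = r.m * r.val t := by
  obtain ⟨h1, h2, h3, h4, -, -, h5⟩ := dat_ok r hr
  obtain ⟨N, hN⟩ := Nat.dvd_of_mod_eq_zero h3
  obtain ⟨v, hv⟩ := Nat.dvd_of_mod_eq_zero h4
  obtain ⟨P, hP⟩ : ∃ P : ℤ[X], P = (X ^ 2 + C (r.G : ℤ)) ^ r.e + C (r.L : ℤ) := ⟨_, rfl⟩
  have hP' : ∀ u : ℕ, P.eval ((u : ℤ) + r.n) = r.pv u := fun u => by simp [hP, Row.pv]
  obtain ⟨q, hq⟩ := sub_dvd_eval_sub (C (md : ℤ) * X + C ((u0 : ℤ) + r.n)) (C ((u0 : ℤ) + r.n))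
    (P.map C)
  rw [eval_map, eval_map, eval₂_at_apply, hP', ← comp, hv, add_sub_cancel_right,
    sub_eq_iff_eq_add] at hq
  obtain ⟨f, hf⟩ : ∃ f : ℤ[X], P.comp (C (md : ℤ) * X + C ((u0 : ℤ) + r.n)) = C (r.m : ℤ) * f :=
    ⟨C (N : ℤ) * X * q + C (v : ℤ), by rw [hq, hN]; push_cast; simp only [C_mul]; ring⟩
  have m0 : (0 : ℤ) < r.m := Nat.cast_pos.2 h2
  have d0 : (0 : ℤ) < md := Nat.cast_pos.2 md_pos
  refine ⟨f, ?_, ?_, fun t => ?_⟩
  · have i1 : Irreducible (P.map (Int.castRingHom ℚ)) := by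
      simp only [hP, Polynomial.map_add, Polynomial.map_pow, map_X, map_natCast,
        Polynomial.map_natCast]
      rcases h5 with ⟨e1, e2⟩ | ⟨e1, e2, e3⟩
      · simpa only [e1, e2, map_natCast] using irr_quad h1
      · simpa only [e1, map_natCast] using irr_quartic e2 e3
    let _ : Invertible (md : ℚ) := invertibleOfNonzero (Nat.cast_pos.2 md_pos).ne'
    have i2 := (MulEquiv.irreducible_iff (algEquivCMulXAddC (md : ℚ) ((u0 : ℚ) + r.n))).2 i1
    have i3 := congrArg (Polynomial.map (Int.castRingHom ℚ)) hf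
    rw [map_comp, Polynomial.map_mul, map_C] at i3
    rw [algEquivCMulXAddC_apply, ← comp_eq_aeval] at i2
    refine (irreducible_isUnit_mul (isUnit_C.2 (Ne.isUnit (show Int.castRingHom ℚ r.m ≠ 0 by
      simpa using h2.ne')))).1 (i3 ▸ ?_)
    simpa only [Polynomial.map_add, Polynomial.map_mul, map_X, map_C, map_natCast, map_add,
      Polynomial.map_natCast] using i2
  · have l1 : P.Monic := by
      rcases h5 with ⟨e1, -⟩ | ⟨e1, -⟩ <;> rw [hP, e1] <;> monicity!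
    have l2 := congrArg leadingCoeff hf
    rw [leadingCoeff_comp (by rw [natDegree_linear d0.ne']; exact one_ne_zero),
      leadingCoeff_linear d0.ne', l1.leadingCoeff, leadingCoeff_mul, leadingCoeff_C] at l2
    exact (pos_iff_pos_of_mul_pos (l2 ▸ by positivity)).1 m0
  · have e1 := congrArg (eval (t : ℤ)) hf
    have e2 := hP' (u0 + md * t)
    simp only [eval_comp, eval_add, eval_mul, eval_C, eval_X] at e1
    rw [show ((u0 + md * t : ℕ) : ℤ) + r.n = md * t + (u0 + r.n) by push_cast; ring, e1] at e2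
    have e3 : r.m ∣ r.pv (u0 + md * t) := Int.natCast_dvd_natCast.1 ⟨_, e2.symm⟩
    have e4 := (Nat.mul_div_cancel' e3).symm
    refine ⟨mul_left_cancel₀ m0.ne' (e2.trans ?_), e4⟩
    exact_mod_cast e4

lemma ev_bound (φ : ℕ → ℕ) (c : ℕ) (h : ∀ x, 2 ≤ x → ∀ t < x, φ t ≤ x ^ c) :
    ∀ l : List ℕ, ∃ d, ∀ x, 2 ≤ x → ∀ t < x, ev l (φ t) ≤ x ^ d
  | [] => ⟨0, fun _ _ _ _ => Nat.zero_le _⟩
  | a :: l => by
    obtain ⟨d, hd⟩ := ev_bound φ c h l
    refine ⟨a + c + d + 1, fun x hx t ht => ?_⟩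
    have h1 : a ≤ x ^ (a + c + d) := a.lt_two_pow_self.le.trans
      ((Nat.pow_le_pow_left hx a).trans (Nat.pow_le_pow_right (by omega) (by omega)))
    have h2 : φ t * ev l (φ t) ≤ x ^ (a + c + d) := (Nat.mul_le_mul (h x hx t ht)
      (hd x hx t ht)).trans (by rw [← pow_add]; exact Nat.pow_le_pow_right (by omega) (by omega))
    rw [ev, pow_succ]
    nlinarith

lemma dvd_foldr {p : ℕ} {φ : ℕ → ℕ} (h : ∀ t, p ∣ φ t) :
    ∀ l : List ℕ, p ∣ (l.map φ).foldr Nat.gcd 0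
  | [] => dvd_zero p
  | a :: l => Nat.dvd_gcd (h a) (dvd_foldr h l)

theorem family : ∃ (k : ℕ) (f : Fin k → ℤ[X]), Function.Injective f ∧ (∀ i, Irreducible (f i)) ∧
    (∀ i, 0 < (f i).leadingCoeff) ∧
    (∀ p : ℕ, p.Prime → ∃ t : ℤ, ¬(p : ℤ) ∣ ∏ i, (f i).eval t) ∧
    ∃ K C : ℕ, 0 < K ∧ 0 < C ∧ ∀ x, 2 ≤ x → ∀ m,
      K * (m + 1) ≤ {t : ℕ | t < x ∧ ∀ i, Prime ((f i).eval (t : ℤ))}.ncard →
        ∃ n, n ≤ x ^ (C * m) ∧ 2 ^ m ≤ cnt n := by
  classical
  choose f f1 f2 f3 using fun i : Fin dat.length => exists_poly (List.getElem_mem i.2)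
  obtain ⟨g, hg⟩ : ∃ g : Fin dat.length → ℕ → ℕ, g = fun i t => dat[i.1].val t := ⟨_, rfl⟩
  have g1 : ∀ i (t : ℕ), (f i).eval (t : ℤ) = g i t := fun i t => hg ▸ (f3 i t).1
  have g2 : ∀ i t, dat[i.1].pv (u0 + md * t) = dat[i.1].m * g i t := fun i t => hg ▸ (f3 i t).2
  have ok := fun i : Fin dat.length => dat_ok _ (List.getElem_mem i.2)
  have inj : Function.Injective f := fun i j h => by
    have h1 : g i 0 = g j 0 := Nat.cast_injective (R := ℤ) (by rw [← g1, ← g1, h])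
    have h2 := (List.nodup_iff_injective_getElem.1 dat_nodup)
      (a₁ := ⟨i, by simp⟩) (a₂ := ⟨j, by simp⟩) (by simpa [hg] using h1)
    exact Fin.ext (Fin.mk.inj h2)
  have adm : ∀ p : ℕ, p.Prime → ∃ t : ℤ, ¬(p : ℤ) ∣ ∏ i, (f i).eval t := fun p hp => by
    by_contra! h
    have h1 : ∀ t : ℕ, p ∣ (dat.map fun r => r.val t).prod := fun t => by
      have h2 := h t
      simp only [g1, hg] at h2
      rw [← Fin.prod_univ_fun_getElem]
      exact_mod_cast h2
    exact hp.not_dvd_one ((dvd_foldr h1 _).trans (dvd_of_eq dat_gcd))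
  refine ⟨_, f, inj, fun i => ?_, f2, adm, ?_⟩
  · refine (IsPrimitive.Int.irreducible_iff_irreducible_map_cast fun r hr => ?_).2 (f1 i)
    by_contra h
    obtain ⟨p, hp, hp'⟩ := Int.exists_prime_and_dvd (mt Int.isUnit_iff_natAbs_eq.2 h)
    obtain ⟨t, ht⟩ := adm _ (Int.prime_iff_natAbs_prime.1 hp)
    refine ht (Int.natAbs_dvd.2 ((hp'.trans ?_).trans (dvd_prod_of_mem _ (mem_univ i))))
    simpa using eval_dvd (x := t) hr
  have gi : ∀ i, Function.Injective (g i) := fun i => StrictMono.injective fun s t h => by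
    refine lt_of_mul_lt_mul_left ?_ (Nat.zero_le dat[i.1].m)
    rw [← g2, ← g2]
    have he : dat[i.1].e ≠ 0 := by rcases (ok i).2.2.2.2.2.2 with h | h <;> omega
    have := Nat.mul_lt_mul_of_pos_left h md_pos
    unfold Row.pv
    gcongr
  have fin : {t : ℕ | ¬Function.Injective fun i => g i t}.Finite := by
    refine (Set.finite_iUnion fun z : {z : Fin dat.length × Fin dat.length // z.1 ≠ z.2} =>
      (finite_setOfPred_isRoot (sub_ne_zero.2 (inj.ne z.2))).preimage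
        (Nat.cast_injective (R := ℤ)).injOn).subset fun t ht => ?_
    obtain ⟨i, j, h1, h2⟩ := Function.not_injective_iff.1 ht
    exact Set.mem_iUnion.2 ⟨⟨(i, j), h2⟩, by simp [g1, h1]⟩
  obtain ⟨c, hc⟩ := ev_bound id 1 (fun x _ t ht => by simpa using ht.le) [u0, md]
  choose d hd using fun i : Fin dat.length => ev_bound _ c hc dat[i.1].pl
  have hid : ∀ t, (dat.map fun r => r.m ^ (2 * r.a)).prod * ∏ i, hv (g i t) dat[i.1].a =
      (dat.map fun r => r.m ^ (2 * r.b)).prod * ∏ i, hv (g i t) dat[i.1].b := fun t => by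
    have h1 : ∀ r ∈ dat, r.pv (u0 + md * t) = r.m * r.val t := fun r hr =>
      ((exists_poly hr).choose_spec.2.2 t).2
    rw [hg, Fin.prod_univ_fun_getElem dat fun r => hv (r.val t) r.a,
      Fin.prod_univ_fun_getElem dat fun r => hv (r.val t) r.b, ← ev_side _ t _ h1,
      ← ev_side _ t _ h1, side_eq]
  refine ⟨2 * (dat.length * dat.length + 1) + fin.toFinset.card,
    (univ.sup d + 1) * (22 * dat.length), by omega, Nat.mul_pos (by omega) (Nat.mul_pos (by omega) dat_pos),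
    fun x hx m hm => ?_⟩
  obtain ⟨S, hS⟩ : ∃ S, S = (range x).filter fun t : ℕ => ∀ i, Prime ((f i).eval (t : ℤ)) :=
    ⟨_, rfl⟩
  rw [show {t : ℕ | t < x ∧ ∀ i, Prime ((f i).eval (t : ℤ))} = S by ext; simp [hS],
    Set.ncard_coe_finset] at hm
  obtain ⟨Y, y1, y2, y3⟩ := exists_indep gi (X := S \ fin.toFinset)
    (fun t ht => by simpa using (mem_sdiff.1 ht).2) (2 * m) (by
      have := le_card_sdiff fin.toFinset S
      have h1 : (dat.length * dat.length + 1) * (2 * m) + fin.toFinset.card ≤ S.card := by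
        nlinarith [Nat.zero_le (fin.toFinset.card * m)]
      omega)
  have y4 : ∀ t ∈ Y, t < x ∧ ∀ i, Prime ((f i).eval (t : ℤ)) := fun t ht => by
    simpa [hS] using (mem_sdiff.1 (y1 ht)).1
  obtain ⟨n, n1, n2⟩ := many_solutions (V := x ^ (univ.sup d + 1)) (i₀ := ⟨0, dat_pos⟩)
    (List.prod_pos fun z hz => by
      obtain ⟨r, hr, rfl⟩ := List.mem_map.1 hz
      exact pow_pos (dat_ok r hr).2.1 _)
    (fun i => (ok i).2.2.2.2.1) (fun i => (ok i).2.2.2.2.2.1) hid dat_ne y2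
    (fun t ht i => Nat.prime_iff_prime_int.2 (g1 i t ▸ (y4 t ht).2 i)) (fun t ht i => by
      have h1 := hd i x hx t (y4 t ht).1
      rw [Row.ev_pl, show ev [u0, md] (id t) = u0 + md * t by simp [ev, mul_comm], g2] at h1
      exact ((Nat.le_mul_of_pos_left _ (ok i).2.1).trans h1).trans (Nat.pow_le_pow_right
        (by omega) ((le_sup (mem_univ i)).trans (Nat.le_succ _)))) y3
  exact ⟨n, by rwa [← pow_mul, ← mul_assoc] at n1, n2⟩

end Pool.Agent.Lib.MP_253cbc_nt.H60
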