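import Pool.Agent.Lib.MP_253cbc_nt.Kraft

open Filter Topology

namespace Pool.Agent.Lib.MP_253cbc_nt.HalfLogTwo

/-- The number of solutions of x σ(x) = n is below n ^ (c / ln ln n) for every c > (ln 2) / 2 and
all large n. -/
theorem result :
    ∀ c : ℝ, Real.log 2 / 2 < c → ∃ N : ℕ, ∀ n : ℕ, N ≤ n →
      (((Finset.range (n + 1)).filter
          (fun x => x * ArithmeticFunction.sigma 1 x = n)).card : ℝ)
        < (n : ℝ) ^ (c / Real.log (Real.log (n : ℝ))) := by
  intro c hc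
  have hl2 : 0 < Real.log 2 := Real.log_pos one_lt_two
  have hl2' : 1 / 2 < Real.log 2 := by linarith [Real.log_two_gt_d9]
  obtain ⟨ε, hε, hε0⟩ : ∃ ε, ε = (c - Real.log 2 / 2) / 2 ∧ 0 < ε := ⟨_, rfl, by linarith⟩
  obtain ⟨t, ht, ht0, ht1⟩ : ∃ t, t = Real.log 2 / 2 / (Real.log 2 / 2 + ε) ∧ 0 < t ∧ t < 1 :=
    ⟨_, rfl, by positivity, by rw [div_lt_one (by positivity)]; linarith⟩
  obtain ⟨η, hη, hη0⟩ : ∃ η, η = (1 - t) / 3 ∧ 0 < η := ⟨_, rfl, by linarith⟩
  have hL : Tendsto (fun n : ℕ => Real.log n) atTop atTop :=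
    Real.tendsto_log_atTop.comp tendsto_natCast_atTop_atTop
  obtain ⟨N, hN⟩ := eventually_atTop.1 ((hL.eventually (eventually_gt_atTop 1)).and
    ((((tendsto_rpow_atTop ht0).comp hL).eventually (eventually_ge_atTop 2)).and
    (((tendsto_rpow_atTop hη0).comp hL).eventually (eventually_gt_atTop (6 / (η ^ 2 * ε))))))
  refine ⟨N + 1, fun n hn => ?_⟩
  obtain ⟨h1, h2, h3⟩ := hN n (by omega)
  dsimp only [Function.comp] at h2 h3
  have hn0 : (0 : ℝ) < n := by exact_mod_cast (by omega : 0 < n)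
  obtain ⟨L, hLdef⟩ : ∃ L, L = Real.log n := ⟨_, rfl⟩
  rw [← hLdef] at h1 h2 h3 ⊢
  have hL0 : 0 < L := by linarith
  have hLL : 0 < Real.log L := Real.log_pos h1
  obtain ⟨y, hy1, hy2⟩ : ∃ y : ℕ, L ^ t ≤ y ∧ (y : ℝ) + 1 ≤ 2 * L ^ t :=
    ⟨⌈L ^ t⌉₊, Nat.le_ceil _, by linarith [Nat.ceil_lt_add_one (by linarith : 0 ≤ L ^ t)]⟩
  have hy : 2 ≤ y := by exact_mod_cast h2.trans hy1
  have hlogy : t * Real.log L ≤ Real.log y := by
    rw [← Real.log_rpow hL0]
    exact Real.log_le_log (by linarith) hy1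
  have h4 := Pool.Agent.Lib.MP_253cbc_nt.card_le (n := n) (K := ⌊L / (2 * (t * Real.log L))⌋₊)
    (by omega) hy (fun k hk => by
      refine Nat.le_floor ?_
      rw [le_div_iff₀ (by positivity)]
      have h5 : ((y : ℝ)) ^ (2 * k) ≤ n := by exact_mod_cast hk
      have h6 := Real.log_le_log (by positivity) h5
      rw [Real.log_pow, ← hLdef] at h6
      push_cast at h6
      nlinarith [mul_le_mul_of_nonneg_left hlogy (Nat.cast_nonneg (α := ℝ) k)])
    ((Finset.range (n + 1)).filter fun x => x * ArithmeticFunction.sigma 1 x = n)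
    fun x hx => (Finset.mem_filter.1 hx).2
  refine lt_of_le_of_lt (Nat.cast_le.2 h4) ?_
  rw [Real.rpow_def_of_pos hn0, ← hLdef, ← Real.log_lt_iff_lt_exp (by positivity)]
  push_cast
  rw [Real.log_mul (by positivity) (by positivity), Real.log_pow, Real.log_pow]
  have h5 : (⌊L / (2 * (t * Real.log L))⌋₊ : ℝ) * Real.log 2
      ≤ L * ((Real.log 2 / 2 + ε) / Real.log L) := by
    refine (mul_le_mul_of_nonneg_right (Nat.floor_le (by positivity)) hl2.le).trans (le_of_eq ?_)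
    rw [ht]
    field_simp
  have h7 : Real.log L ≤ L ^ η / η := Real.log_le_rpow_div hL0.le hη0
  have h8 : Real.log ((Nat.log 2 n : ℝ) + 1) ≤ 3 * (L ^ η / η) := by
    have h9 : (Nat.log 2 n : ℝ) + 1 ≤ 3 * L := by
      have h7 : ((2 : ℝ)) ^ Nat.log 2 n ≤ n := by exact_mod_cast Nat.pow_log_le_self 2 (by omega)
      have h8 := Real.log_le_log (by positivity) h7
      rw [Real.log_pow, ← hLdef] at h8
      nlinarith [Nat.cast_nonneg (α := ℝ) (Nat.log 2 n)]
    refine (Real.log_le_log (by positivity) h9).trans ((Real.log_le_rpow_div (by positivity) hη0).trans ?_)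
    rw [Real.mul_rpow (by norm_num) hL0.le, mul_div_assoc]
    refine mul_le_mul_of_nonneg_right ?_ (by positivity)
    simpa using Real.rpow_le_rpow_of_exponent_le (by norm_num : (1 : ℝ) ≤ 3) (by linarith : η ≤ 1)
  have h9 : L = L ^ t * L ^ η * L ^ η * L ^ η := by
    rw [← Real.rpow_add hL0, ← Real.rpow_add hL0, ← Real.rpow_add hL0,
      show t + η + η + η = 1 by rw [hη]; ring, Real.rpow_one]
  have h10 : ((y : ℝ) + 1) * Real.log ((Nat.log 2 n : ℝ) + 1) < L * (ε / Real.log L) := by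
    rw [← mul_div_assoc, lt_div_iff₀ hLL]
    have h11 : 0 ≤ Real.log ((Nat.log 2 n : ℝ) + 1) := Real.log_nonneg (by simp)
    rw [div_lt_iff₀ (by positivity)] at h3
    calc _ ≤ 2 * L ^ t * (3 * (L ^ η / η)) * (L ^ η / η) := by gcongr
      _ = L ^ t * L ^ η * L ^ η * 6 / η ^ 2 := by ring
      _ < L ^ t * L ^ η * L ^ η * (L ^ η * (η ^ 2 * ε)) / η ^ 2 := by gcongr
      _ = L ^ t * L ^ η * L ^ η * L ^ η * ε := by field_simp
      _ = _ := by rw [← h9]
  have h11 : L * (c / Real.log L)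
      = L * ((Real.log 2 / 2 + ε) / Real.log L) + L * (ε / Real.log L) := by
    rw [hε]; ring
  push_cast
  linarith

end Pool.Agent.Lib.MP_253cbc_nt.HalfLogTwo
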