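import Mathlib

/-!
A Kraft type inequality for the solutions of x σ(x) = n, read off from the largest prime down.
-/

open Finset ArithmeticFunction

namespace Pool.Agent.Lib.MP_253cbc_nt

lemma sum_two_pow_pred (r : ℕ) : ∑ a ∈ range (r + 1), (2 : ℝ) ^ (a - 1) = 2 ^ r := by
  induction r with
  | zero => simp
  | succ r ih => rw [sum_range_succ, ih, Nat.add_sub_cancel]; ring

lemma kraft (a r : ℕ → ℕ → ℕ) (P : Finset ℕ) : ∀ X : Finset ℕ,
    (∀ x ∈ X, ∀ p ∈ P, a x p ≤ r x p) →
    (∀ x ∈ X, ∀ x' ∈ X, ∀ p ∈ P, (∀ q ∈ P, p < q → a x q = a x' q) → r x p = r x' p) →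
    (∀ x ∈ X, ∀ x' ∈ X, (∀ q ∈ P, a x q = a x' q) → x = x') →
    ∑ x ∈ X, ∏ p ∈ P, (2 : ℝ) ^ (a x p - 1) / 2 ^ r x p ≤ 1 := by
  induction P using Finset.induction_on_max with
  | empty =>
    intro X _ _ h
    simp only [prod_empty, sum_const, nsmul_eq_mul, mul_one]
    exact_mod_cast card_le_one.2 fun x hx x' hx' => h x hx x' hx' (by simp)
  | insert m P hm ih =>
    intro X h1 h2 h3
    rcases X.eq_empty_or_nonempty with rfl | ⟨x0, hx0⟩
    · simp
    have hmP : m ∉ P := fun h => lt_irrefl _ (hm m h)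
    have hr : ∀ x ∈ X, r x m = r x0 m := fun x hx =>
      h2 x hx x0 hx0 m (mem_insert_self _ _) fun q hq hmq => by
        rcases mem_insert.1 hq with rfl | hq
        · exact absurd hmq (lt_irrefl _)
        · exact absurd hmq (hm q hq).not_gt
    rw [← sum_fiberwise_of_maps_to (s := X) (t := range (r x0 m + 1)) (g := fun x => a x m)
      fun x hx => mem_range.2 (Nat.lt_succ_of_le (hr x hx ▸ h1 x hx m (mem_insert_self _ _)))]
    have h4 : ∀ j ∈ range (r x0 m + 1), ∑ x ∈ X with a x m = j,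
        ∏ p ∈ insert m P, (2 : ℝ) ^ (a x p - 1) / 2 ^ r x p ≤ 2 ^ (j - 1) / 2 ^ r x0 m := by
      intro j _
      have h5 := ih (X.filter fun x => a x m = j)
        (fun x hx p hp => h1 x (mem_filter.1 hx).1 p (mem_insert_of_mem hp))
        (fun x hx x' hx' p hp h => h2 x (mem_filter.1 hx).1 x' (mem_filter.1 hx').1 p
          (mem_insert_of_mem hp) fun q hq hpq => by
            rcases mem_insert.1 hq with rfl | hq
            · rw [(mem_filter.1 hx).2, (mem_filter.1 hx').2]
            · exact h q hq hpq)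
        (fun x hx x' hx' h => h3 x (mem_filter.1 hx).1 x' (mem_filter.1 hx').1 fun q hq => by
          rcases mem_insert.1 hq with rfl | hq
          · rw [(mem_filter.1 hx).2, (mem_filter.1 hx').2]
          · exact h q hq)
      refine le_trans (le_of_eq ?_) (mul_le_of_le_one_right (by positivity) h5)
      rw [mul_sum]
      refine sum_congr rfl fun x hx => ?_
      rw [prod_insert hmP, (mem_filter.1 hx).2, hr x (mem_filter.1 hx).1]
    refine (sum_le_sum h4).trans ?_
    rw [← sum_div, sum_two_pow_pred, div_self (by positivity)]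

lemma sigma_le {q : ℕ} (hq : q.Prime) (a : ℕ) : sigma 1 (q ^ a) ≤ (q + 1) ^ a := by
  rw [sigma_one_apply_prime_pow hq]
  induction a with
  | zero => simp
  | succ a ih =>
    rw [sum_range_succ', pow_succ (q + 1), mul_add, mul_one]
    simp only [pow_succ, ← sum_mul, pow_zero]
    exact add_le_add (Nat.mul_le_mul_right _ ih) (Nat.one_le_pow _ _ (Nat.succ_pos _))

lemma up_le {q : ℕ} (hq : q.Prime) (hq2 : 2 < q) (a : ℕ) (P : Finset ℕ) (hP : ∀ p ∈ P, p.Prime) :
    ∑ p ∈ P with q < p, (sigma 1 (q ^ a)).factorization p ≤ a - 1 := by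
  rcases Nat.eq_zero_or_pos a with rfl | ha
  · simp
  have h0 : sigma 1 (q ^ a) ≠ 0 := (sigma_pos _ _ (pow_ne_zero _ hq.ne_zero)).ne'
  have h1 : ∏ p ∈ P with q < p, p ^ (sigma 1 (q ^ a)).factorization p ∣ sigma 1 (q ^ a) :=
    prod_dvd_of_isRelPrime (fun p hp p' hp' h => Nat.coprime_iff_isRelPrime.1 (Nat.coprime_pow_primes _ _
      (hP p (mem_filter.1 hp).1) (hP p' (mem_filter.1 hp').1) h))
      fun p _ => Nat.ordProj_dvd _ _
  have h2 : (q + 2) ^ ∑ p ∈ P with q < p, (sigma 1 (q ^ a)).factorization p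
      ≤ ∏ p ∈ P with q < p, p ^ (sigma 1 (q ^ a)).factorization p := by
    rw [← prod_pow_eq_pow_sum]
    refine prod_le_prod' fun p hp => Nat.pow_le_pow_left ?_ _
    have h3 := (mem_filter.1 hp).2
    have h4 := (hP p (mem_filter.1 hp).1).eq_two_or_odd
    have h5 := hq.eq_two_or_odd
    omega
  have h3 := (h2.trans (Nat.le_of_dvd (Nat.pos_of_ne_zero h0) h1)).trans_lt
    ((sigma_le hq a).trans_lt (Nat.pow_lt_pow_left (Nat.lt_succ_self (q + 1)) ha.ne'))
  have := (Nat.pow_lt_pow_iff_right (by omega)).1 h3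
  omega

lemma val_eq {x n : ℕ} (hn : n ≠ 0) (hx : x * sigma 1 x = n) (p : ℕ) :
    n.factorization p = x.factorization p
      + ∑ q ∈ n.primeFactors, (sigma 1 (q ^ x.factorization q)).factorization p := by
  have hx0 : x ≠ 0 := by rintro rfl; exact hn (by simpa using hx.symm)
  have h1 : sigma 1 x = ∏ q ∈ n.primeFactors, sigma 1 (q ^ x.factorization q) := by
    rw [isMultiplicative_sigma.multiplicative_factorization _ hx0, Finsupp.prod,
      Nat.support_factorization]
    refine prod_subset (Nat.primeFactors_mono ⟨_, hx.symm⟩ hn) fun q _ hq => ?_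
    rw [← Nat.support_factorization, Finsupp.notMem_support_iff] at hq
    simp [hq]
  conv_lhs => rw [← hx, Nat.factorization_mul hx0 (sigma_pos _ _ hx0).ne', h1]
  rw [Nat.factorization_prod fun q hq =>
    (sigma_pos _ _ (pow_ne_zero _ (Nat.prime_of_mem_primeFactors hq).ne_zero)).ne']
  simp

lemma val_self {p : ℕ} (hp : p.Prime) (a : ℕ) : (sigma 1 (p ^ a)).factorization p = 0 := by
  refine Nat.factorization_eq_zero_of_not_dvd fun h => ?_
  rw [sigma_one_apply_prime_pow hp, sum_range_succ', pow_zero] at h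
  exact hp.one_lt.ne' (Nat.dvd_one.1 ((Nat.dvd_add_right
    (dvd_sum fun i _ => dvd_pow_self p i.succ_ne_zero)).1 h))

/-- Solutions with a prescribed smooth part. -/
lemma card_fiber_le {n y K : ℕ} (hn : n ≠ 0) (hy : 2 ≤ y) (hK : ∀ k, y ^ (2 * k) ≤ n → k ≤ K)
    (X : Finset ℕ) (hX : ∀ x ∈ X, x * sigma 1 x = n)
    (hs : ∀ x ∈ X, ∀ x' ∈ X, ∀ q ≤ y, x.factorization q = x'.factorization q) :
    X.card ≤ 2 ^ K := by
  set P := n.primeFactors.filter (y < ·) with hP
  have hPp : ∀ p ∈ P, p.Prime := fun p hp => Nat.prime_of_mem_primeFactors (mem_filter.1 hp).1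
  have hx0 : ∀ x ∈ X, x ≠ 0 := fun x hx h => hn (by rw [← hX x hx, h, zero_mul])
  set φ : ℕ → ℕ → ℕ → ℕ := fun x p q => (sigma 1 (q ^ x.factorization q)).factorization p with hφ
  have h1 := kraft (fun x p => x.factorization p)
    (fun x p => x.factorization p + ∑ q ∈ P with q < p, φ x p q) P X
    (fun x _ p _ => Nat.le_add_right _ _) (fun x hx x' hx' p hp h => by
      have key : ∀ x ∈ X, n.factorization p = (x.factorization p + ∑ q ∈ P with q < p, φ x p q)
          + ∑ q ∈ n.primeFactors with ¬ (y < q ∧ q < p), φ x p q := by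
        intro x hx
        rw [val_eq hn (hX x hx), add_assoc, hP, filter_filter, sum_filter_add_sum_filter_not]
      have h2 : ∑ q ∈ n.primeFactors with ¬ (y < q ∧ q < p), φ x p q
          = ∑ q ∈ n.primeFactors with ¬ (y < q ∧ q < p), φ x' p q := by
        refine sum_congr rfl fun q hq => ?_
        obtain ⟨h3, h4⟩ := mem_filter.1 hq
        simp only [hφ]
        by_cases h5 : y < q
        · rcases (not_lt.1 fun h => h4 ⟨h5, h⟩).eq_or_lt with rfl | h6
          · rw [val_self (hPp p hp), val_self (hPp p hp)]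
          · rw [h q (mem_filter.2 ⟨h3, h5⟩) h6]
        · rw [hs x hx x' hx' q (not_lt.1 h5)]
      have h3 := key x hx
      have h4 := key x' hx'
      omega)
    (fun x hx x' hx' h => by
      refine Nat.eq_of_factorization_eq (hx0 x hx) (hx0 x' hx') fun q => ?_
      by_cases h2 : q ∈ n.primeFactors
      · by_cases h3 : y < q
        · exact h q (mem_filter.2 ⟨h2, h3⟩)
        · exact hs x hx x' hx' q (not_lt.1 h3)
      · have h3 : ∀ x ∈ X, x.factorization q = 0 := fun x hx => by
          rw [← Finsupp.notMem_support_iff, Nat.support_factorization]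
          exact fun h => h2 (Nat.primeFactors_mono ⟨_, (hX x hx).symm⟩ hn h)
        rw [h3 x hx, h3 x' hx'])
  have h2 : ∀ x ∈ X, (1 : ℝ) / 2 ^ K ≤ ∏ p ∈ P, (2 : ℝ) ^ (x.factorization p - 1)
      / 2 ^ (x.factorization p + ∑ q ∈ P with q < p, φ x p q) := by
    intro x hx
    rw [prod_div_distrib, prod_pow_eq_pow_sum, prod_pow_eq_pow_sum,
      div_le_div_iff₀ (by positivity) (by positivity), one_mul, ← pow_add]
    refine pow_le_pow_right₀ one_le_two ?_
    have h3 : ∑ p ∈ P, ∑ q ∈ P with q < p, φ x p q ≤ ∑ q ∈ P, (x.factorization q - 1) := by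
      rw [sum_comm' (t' := P) (s' := fun q => P.filter (q < ·)) (by simp; tauto)]
      exact sum_le_sum fun q hq => up_le (hPp q hq) (hy.trans_lt (mem_filter.1 hq).2) _ P hPp
    have h4 : ∑ p ∈ P, x.factorization p ≤ K := by
      refine hK _ ?_
      have h5 : y ^ ∑ p ∈ P, x.factorization p ≤ x := by
        refine le_trans ?_ (Nat.le_of_dvd (Nat.pos_of_ne_zero (hx0 x hx)) (prod_dvd_of_isRelPrime
          (fun p hp p' hp' h => Nat.coprime_iff_isRelPrime.1
            (Nat.coprime_pow_primes _ _ (hPp p hp) (hPp p' hp') h)) fun p _ => Nat.ordProj_dvd x p))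
        rw [← prod_pow_eq_pow_sum]
        exact prod_le_prod' fun p hp => Nat.pow_le_pow_left (mem_filter.1 hp).2.le _
      have h6 : x ≤ sigma 1 x := by
        rw [sigma_one_apply]
        exact single_le_sum (f := fun d => d) (fun _ _ => Nat.zero_le _)
          (Nat.mem_divisors_self x (hx0 x hx))
      rw [two_mul, pow_add, ← hX x hx]
      exact Nat.mul_le_mul h5 (h5.trans h6)
    rw [sum_add_distrib]
    omega
  have h3 := (sum_le_sum h2).trans h1
  rw [sum_const, nsmul_eq_mul, mul_one_div, div_le_one (by positivity)] at h3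
  exact_mod_cast h3

theorem card_le {n y K : ℕ} (hn : n ≠ 0) (hy : 2 ≤ y) (hK : ∀ k, y ^ (2 * k) ≤ n → k ≤ K)
    (X : Finset ℕ) (hX : ∀ x ∈ X, x * sigma 1 x = n) :
    X.card ≤ 2 ^ K * (Nat.log 2 n + 1) ^ (y + 1) := by
  classical
  have h1 := card_le_mul_card_image (f := fun x => fun q : Fin (y + 1) => x.factorization q) X
    (2 ^ K) fun b _ => card_fiber_le hn hy hK _ (fun x hx => hX x (mem_filter.1 hx).1)
      fun x hx x' hx' q hq => congrFun ((mem_filter.1 hx).2.trans (mem_filter.1 hx').2.symm)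
        ⟨q, Nat.lt_succ_of_le hq⟩
  refine h1.trans (Nat.mul_le_mul_left _ ?_)
  refine (card_le_card (t := Fintype.piFinset fun _ : Fin (y + 1) => range (Nat.log 2 n + 1))
    fun b hb => ?_).trans (by simp)
  obtain ⟨x, hx, rfl⟩ := mem_image.1 hb
  refine Fintype.mem_piFinset.2 fun q => mem_range.2 (Nat.lt_succ_of_le ?_)
  by_cases hq : (q : ℕ).Prime
  · refine Nat.le_log_of_pow_le one_lt_two ((Nat.pow_le_pow_left hq.two_le _).trans ?_)
    exact Nat.le_of_dvd (Nat.pos_of_ne_zero hn) ((Nat.ordProj_dvd x q).trans ⟨_, (hX x hx).symm⟩)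
  · simp [Nat.factorization_eq_zero_of_not_prime _ hq]

end Pool.Agent.Lib.MP_253cbc_nt
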