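import Mathlib

/-!
Solutions of x σ(x) = n whose large prime powers have exponent at most five:
the combinatorial part.
-/

open Finset

namespace Pool.Agent.Lib.MP_253cbc_nt.Six

/-- The sum of the divisors of the prime power p ^ a. -/
def sg (p a : ℕ) : ℕ := ∑ i ∈ range (a + 1), p ^ i

/-- Prime powers whose divisor sum is divisible by 2, 3 or 5. -/
def bad (p a : ℕ) : Prop := a % 2 = 1 ∨ (a = 2 ∧ p % 3 = 1) ∨ (a = 4 ∧ p % 5 = 1)

instance (p a : ℕ) : Decidable (bad p a) := by unfold bad; infer_instance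

/-- The only nonzero exponent of a switching prime. -/
def ex (p : ℕ) : ℕ := if p % 3 = 1 then 4 else 2

lemma sg_zero (p : ℕ) : sg p 0 = 1 := by simp [sg]

lemma sg_pos (p a : ℕ) : 0 < sg p a := by
  rw [sg, sum_range_succ']
  simp

lemma pow_lt_sg {p a : ℕ} (ha : 0 < a) : p ^ a < sg p a := by
  obtain ⟨b, rfl⟩ : ∃ b, a = b + 1 := ⟨a - 1, by omega⟩
  have := sg_pos p b
  rw [sg] at this
  rw [sg, sum_range_succ]
  omega

lemma mp_sdiff (e s : ℕ → ℕ) (W : ℕ) {S₁ S₂ : Finset ℕ} (h1 : ∀ p ∈ S₁, p.Prime ∧ W < p)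
    (h2 : ∀ p ∈ S₂, p.Prime ∧ 0 < s p) (hW : ∏ p ∈ S₂, s p ≤ W * ∏ p ∈ S₂, p ^ e p)
    (d1 : ∏ p ∈ S₁, p ^ e p ∣ ∏ p ∈ S₁, s p) (d2 : ∏ p ∈ S₂, p ^ e p ∣ ∏ p ∈ S₂, s p) :
    ∏ p ∈ S₁ \ S₂, p ^ e p ∣ ∏ p ∈ S₁ \ S₂, s p := by
  refine Finset.prod_dvd_of_isRelPrime (fun p hp q hq hpq => ?_) fun r hr => ?_
  · have hp' := (h1 p (mem_sdiff.1 (mem_coe.1 hp)).1).1
    have hq' := (h1 q (mem_sdiff.1 (mem_coe.1 hq)).1).1
    exact Nat.coprime_iff_isRelPrime.1 (Nat.coprime_pow_primes _ _ hp' hq' hpq)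
  · obtain ⟨hr1, hr2⟩ := mem_sdiff.1 hr
    obtain ⟨hrp, hrW⟩ := h1 r hr1
    obtain ⟨k, hk⟩ := d2
    have hN : 0 < ∏ p ∈ S₂, p ^ e p := prod_pos fun p hp => pow_pos (h2 p hp).1.pos _
    have hS : 0 < ∏ p ∈ S₂, s p := prod_pos fun p hp => (h2 p hp).2
    have hkW : k ≤ W := by
      rw [hk, mul_comm W] at hW
      exact Nat.le_of_mul_le_mul_left hW hN
    have hk0 : 0 < k := by
      rcases Nat.eq_zero_or_pos k with h | h
      · rw [hk, h, mul_zero] at hS; omega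
      · exact h
    have hnd : ¬ r ∣ ∏ p ∈ S₂, s p := by
      rw [hk, hrp.dvd_mul]
      rintro (h | h)
      · obtain ⟨p, hp, hrp'⟩ := (Prime.dvd_finset_prod_iff hrp.prime _).1 h
        have := (Nat.prime_dvd_prime_iff_eq hrp (h2 p hp).1).1 (hrp.dvd_of_dvd_pow hrp')
        exact hr2 (this ▸ hp)
      · have := Nat.le_of_dvd hk0 h
        omega
    have hnd' : ¬ r ∣ ∏ p ∈ S₁ ∩ S₂, s p := fun h =>
      hnd (h.trans (prod_dvd_prod_of_subset _ _ _ inter_subset_right))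
    have h3 : r ^ e r ∣ (∏ p ∈ S₁ \ S₂, s p) * ∏ p ∈ S₁ ∩ S₂, s p := by
      rw [← prod_union (disjoint_sdiff_inter _ _), sdiff_union_inter]
      exact (dvd_prod_of_mem (fun p => p ^ e p) hr1).trans d1
    exact (Nat.Coprime.pow_left _ ((Nat.Prime.coprime_iff_not_dvd hrp).2 hnd')).dvd_of_dvd_mul_right
      h3

lemma mp_card (e s : ℕ → ℕ) (W : ℕ) (Q : Finset ℕ) :
    (∀ p ∈ Q, p.Prime ∧ W < p ∧ p ^ e p < s p) →
    (∀ S ⊆ Q, ∏ p ∈ S, s p ≤ W * ∏ p ∈ S, p ^ e p) →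
    #{S ∈ Q.powerset | ∏ p ∈ S, p ^ e p ∣ ∏ p ∈ S, s p} * ∏ p ∈ Q, p ^ e p ≤ ∏ p ∈ Q, s p := by
  induction Q using Finset.strongInduction with
  | H Q ih =>
  intro hQ hW
  set F := {S ∈ Q.powerset | ∏ p ∈ S, p ^ e p ∣ ∏ p ∈ S, s p} with hF
  have hsd : ∀ S₁ ∈ F, ∀ S₂ ∈ F, S₁ \ S₂ ∈ F := by
    intro S₁ h1 S₂ h2
    obtain ⟨h1a, h1b⟩ := mem_filter.1 h1
    obtain ⟨h2a, h2b⟩ := mem_filter.1 h2
    rw [mem_powerset] at h1a h2a
    refine mem_filter.2 ⟨mem_powerset.2 (sdiff_subset.trans h1a), ?_⟩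
    exact mp_sdiff e s W (fun p hp => ⟨(hQ p (h1a hp)).1, (hQ p (h1a hp)).2.1⟩)
      (fun p hp => ⟨(hQ p (h2a hp)).1, by have := (hQ p (h2a hp)).2.2; omega⟩) (hW _ h2a) h1b h2b
  by_cases hne : (F.filter fun S => S.Nonempty).Nonempty
  · obtain ⟨A, hA, hmin⟩ := exists_min_image _ card hne
    obtain ⟨hAF, hAne⟩ := mem_filter.1 hA
    obtain ⟨hAQ, hAd⟩ := mem_filter.1 hAF
    rw [mem_powerset] at hAQ
    have hss : Q \ A ⊂ Q := sdiff_ssubset hAQ hAne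
    have hi := ih _ hss (fun p hp => hQ p (mem_sdiff.1 hp).1)
      fun S hS => hW S (hS.trans sdiff_subset)
    set F' := {S ∈ (Q \ A).powerset | ∏ p ∈ S, p ^ e p ∣ ∏ p ∈ S, s p} with hF'
    have hsub : F ⊆ F' ∪ F'.image fun S => S ∪ A := by
      intro S hS
      have hSQ : S ⊆ Q := mem_powerset.1 (mem_filter.1 hS).1
      have h1 : S \ A ∈ F' := mem_filter.2
        ⟨mem_powerset.2 (sdiff_subset_sdiff hSQ subset_rfl), (mem_filter.1 (hsd S hS A hAF)).2⟩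
      by_cases h : (A \ S).Nonempty
      · have h2 := hmin (A \ S) (mem_filter.2 ⟨hsd A hAF S hS, h⟩)
        have h3 : A \ S = A := eq_of_subset_of_card_le sdiff_subset h2
        have h4 : S \ A = S := sdiff_eq_self_of_disjoint (Finset.sdiff_eq_self_iff_disjoint.1 h3).symm
        exact mem_union_left _ (h4 ▸ h1)
      · rw [not_nonempty_iff_eq_empty, sdiff_eq_empty_iff_subset] at h
        exact mem_union_right _ (mem_image.2 ⟨S \ A, h1, sdiff_union_of_subset h⟩)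
    have hc : #F ≤ 2 * #F' := by
      have h1 := (card_le_card hsub).trans (card_union_le _ _)
      have h2 : #(F'.image fun S => S ∪ A) ≤ #F' := card_image_le
      omega
    have h2A : 2 * ∏ p ∈ A, p ^ e p ≤ ∏ p ∈ A, s p := by
      obtain ⟨k, hk⟩ := hAd
      have hlt : ∏ p ∈ A, p ^ e p < ∏ p ∈ A, s p :=
        prod_lt_prod_of_nonempty (fun p hp => pow_pos (hQ p (hAQ hp)).1.pos _)
          (fun p hp => (hQ p (hAQ hp)).2.2) hAne
      rw [hk] at hlt ⊢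
      have : 2 ≤ k := by
        by_contra hh
        have : k = 0 ∨ k = 1 := by omega
        rcases this with rfl | rfl <;> simp at hlt
      rw [mul_comm]
      exact Nat.mul_le_mul_left _ this
    rw [← prod_sdiff hAQ, ← prod_sdiff hAQ]
    calc #F * ((∏ p ∈ Q \ A, p ^ e p) * ∏ p ∈ A, p ^ e p)
        ≤ 2 * #F' * ((∏ p ∈ Q \ A, p ^ e p) * ∏ p ∈ A, p ^ e p) := Nat.mul_le_mul_right _ hc
      _ = (#F' * ∏ p ∈ Q \ A, p ^ e p) * (2 * ∏ p ∈ A, p ^ e p) := by ring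
      _ ≤ _ := Nat.mul_le_mul hi h2A
  · have h1 : F ⊆ {∅} := by
      intro S hS
      rw [mem_singleton]
      by_contra h
      exact hne ⟨S, mem_filter.2 ⟨hS, nonempty_iff_ne_empty.2 h⟩⟩
    have h2 : #F ≤ 1 := (card_le_card h1).trans (card_singleton _).le
    calc #F * ∏ p ∈ Q, p ^ e p ≤ 1 * ∏ p ∈ Q, p ^ e p := Nat.mul_le_mul_right _ h2
      _ ≤ _ := by
        rw [one_mul]
        exact prod_le_prod (fun _ _ => Nat.zero_le _) fun p hp => (hQ p hp).2.2.le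

lemma mod_of_dvd_sg {r l q : ℕ} (hr : r.Prime) (hl : (l + 1).Prime) (hrl : l + 1 < r)
    (h : r ∣ sg q l) : r % (l + 1) = 1 := by
  haveI := Fact.mk hr
  haveI := Fact.mk hl
  have h0 : ∑ i ∈ range (l + 1), (q : ZMod r) ^ i = 0 := by
    have := (ZMod.natCast_eq_zero_iff _ _).2 h
    rw [sg] at this
    push_cast at this
    exact this
  have h1 : (q : ZMod r) ^ (l + 1) = 1 := by
    have := geom_sum_mul (q : ZMod r) (l + 1)
    rw [h0, zero_mul] at this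
    exact sub_eq_zero.1 this.symm
  have h2 : (q : ZMod r) ≠ 1 := by
    intro hq
    rw [hq] at h0
    simp only [one_pow, sum_const, card_range, nsmul_eq_mul, mul_one] at h0
    have := Nat.le_of_dvd (by omega) ((ZMod.natCast_eq_zero_iff _ _).1 h0)
    omega
  have h3 : (q : ZMod r) ≠ 0 := by
    intro hq
    rw [hq, zero_pow (by omega)] at h1
    exact zero_ne_one h1
  have h4 := ZMod.orderOf_dvd_card_sub_one h3
  rw [orderOf_eq_prime h1 h2] at h4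
  obtain ⟨c, hc⟩ := h4
  have h5 : r = 1 + (l + 1) * c := by omega
  rw [h5, Nat.add_mul_mod_self_left]
  exact Nat.mod_eq_of_lt hl.one_lt

lemma dvd_sg {p a l : ℕ} (hp : p % l = 1 % l) (ha : l ∣ a + 1) : l ∣ sg p a := by
  rw [← ZMod.natCast_eq_zero_iff, sg]
  push_cast
  have h1 : (p : ZMod l) = 1 := by
    have := (ZMod.natCast_eq_natCast_iff' p 1 l).2 hp
    simpa using this
  simp only [h1, one_pow, sum_const, card_range, nsmul_eq_mul, mul_one]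
  exact (ZMod.natCast_eq_zero_iff _ _).2 ha

lemma bad_dvd {p a : ℕ} (hp : p % 2 = 1) (h : bad p a) : 2 ∣ sg p a ∨ 3 ∣ sg p a ∨ 5 ∣ sg p a := by
  rcases h with h | ⟨rfl, h⟩ | ⟨rfl, h⟩
  · exact Or.inl (dvd_sg hp (by omega))
  · exact Or.inr (Or.inl (dvd_sg h (by norm_num)))
  · exact Or.inr (Or.inr (dvd_sg h (by norm_num)))

lemma hit_lt (V : Finset ℕ) (a b : ℕ → ℕ) (hV : ∀ p ∈ V, p.Prime)
    (h : ∏ p ∈ V, p ^ a p * sg p (a p) = ∏ p ∈ V, p ^ b p * sg p (b p)) {r : ℕ} (hr : r ∈ V)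
    (hlt : a r < b r) : ∃ q ∈ V, r ∣ sg q (a q) := by
  have hrp := hV r hr
  have h1 : r ^ (a r + 1) ∣ ∏ p ∈ V, p ^ a p * sg p (a p) := by
    rw [h]
    exact ((pow_dvd_pow r hlt).trans (Dvd.intro _ rfl)).trans
      (dvd_prod_of_mem (fun p => p ^ b p * sg p (b p)) hr)
  rw [← mul_prod_erase V _ hr, pow_succ, mul_assoc,
    Nat.mul_dvd_mul_iff_left (pow_pos hrp.pos _), hrp.dvd_mul] at h1
  rcases h1 with h1 | h1
  · exact ⟨r, hr, h1⟩
  · obtain ⟨q, hq, h2⟩ := (Prime.dvd_finset_prod_iff hrp.prime _).1 h1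
    obtain ⟨hq1, hq2⟩ := mem_erase.1 hq
    rcases hrp.dvd_mul.1 h2 with h3 | h3
    · exact absurd ((Nat.prime_dvd_prime_iff_eq hrp (hV q hq2)).1 (hrp.dvd_of_dvd_pow h3)).symm hq1
    · exact ⟨q, hq2, h3⟩

lemma hit_mod {r q c : ℕ} (hr : r.Prime) (h5 : 5 < r) (hc : c ≤ 5) (hb : ¬ bad q c)
    (h : r ∣ sg q c) : r % 3 = 1 ∨ r % 5 = 1 := by
  have h1 : c = 0 ∨ c = 2 ∨ c = 4 := by
    have : ¬ c % 2 = 1 := fun h => hb (Or.inl h)
    omega
  rcases h1 with rfl | rfl | rfl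
  · rw [sg_zero, Nat.dvd_one] at h
    omega
  · exact Or.inl (mod_of_dvd_sg hr (by norm_num) (by omega) h)
  · exact Or.inr (mod_of_dvd_sg hr (by norm_num) (by omega) h)

lemma pair (V : Finset ℕ) (a b : ℕ → ℕ)
    (hV : ∀ p ∈ V, p.Prime ∧ 5 < p ∧ a p ≠ b p ∧ a p ≤ 5 ∧ b p ≤ 5 ∧ ¬ bad p (a p) ∧ ¬ bad p (b p))
    (h : ∏ p ∈ V, p ^ a p * sg p (a p) = ∏ p ∈ V, p ^ b p * sg p (b p)) :
    (∀ p ∈ V, a p + b p = ex p) ∧ ∏ p ∈ V, p ^ ex p ∣ ∏ p ∈ V, sg p (ex p) := by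
  have key : ∀ p ∈ V, (a p = 0 ∧ b p = ex p) ∨ (a p = ex p ∧ b p = 0) := by
    intro p hp
    obtain ⟨h1, h2, h3, h4, h5, h6, h7⟩ := hV p hp
    have h8 : p % 3 = 1 ∨ p % 5 = 1 := by
      rcases lt_or_gt_of_ne h3 with h9 | h9
      · obtain ⟨q, hq, h10⟩ := hit_lt V a b (fun p hp => (hV p hp).1) h hp h9
        exact hit_mod h1 h2 (hV q hq).2.2.2.1 (hV q hq).2.2.2.2.2.1 h10
      · obtain ⟨q, hq, h10⟩ := hit_lt V b a (fun p hp => (hV p hp).1) h.symm hp h9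
        exact hit_mod h1 h2 (hV q hq).2.2.2.2.1 (hV q hq).2.2.2.2.2.2 h10
    unfold bad at h6 h7
    unfold ex
    split_ifs <;> omega
  refine ⟨fun p hp => by rcases key p hp with h | h <;> omega, ?_⟩
  have h1 : ∏ p ∈ V, p ^ ex p = (∏ p ∈ V, p ^ a p) * ∏ p ∈ V, p ^ b p := by
    rw [← prod_mul_distrib]
    refine prod_congr rfl fun p hp => ?_
    rcases key p hp with ⟨h1, h2⟩ | ⟨h1, h2⟩ <;> simp [h1, h2]
  have h2 : ∏ p ∈ V, sg p (ex p) = (∏ p ∈ V, sg p (b p)) * ∏ p ∈ V, sg p (a p) := by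
    rw [← prod_mul_distrib]
    refine prod_congr rfl fun p hp => ?_
    rcases key p hp with ⟨h1, h2⟩ | ⟨h1, h2⟩ <;> simp [h1, h2, sg_zero]
  have h3 : Nat.Coprime (∏ p ∈ V, p ^ a p) (∏ p ∈ V, p ^ b p) := by
    refine Nat.Coprime.prod_left fun p hp => Nat.Coprime.prod_right fun q hq => ?_
    by_cases hpq : p = q
    · subst hpq
      rcases key p hp with ⟨h1, -⟩ | ⟨-, h1⟩ <;> simp [h1]
    · exact Nat.coprime_pow_primes _ _ (hV p hp).1 (hV q hq).1 hpq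
  rw [prod_mul_distrib, prod_mul_distrib] at h
  rw [h1, h2]
  exact mul_dvd_mul (h3.dvd_of_dvd_mul_left (Dvd.intro _ h))
    (h3.symm.dvd_of_dvd_mul_left (Dvd.intro _ h.symm))

end Pool.Agent.Lib.MP_253cbc_nt.Six
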