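import Pool.Agent.Lib.MP_253cbc_nt.SixA

/-!
The weighted count of the solutions of x σ(x) = n.
-/

open Finset

namespace Pool.Agent.Lib.MP_253cbc_nt.Six

lemma sol_prod {n x : ℕ} (hn : n ≠ 0) (h : x * ArithmeticFunction.sigma 1 x = n) :
    n = ∏ p ∈ n.primeFactors, p ^ x.factorization p * sg p (x.factorization p) ∧
      x = ∏ p ∈ n.primeFactors, p ^ x.factorization p ∧
      ∀ p, x.factorization p ≤ n.factorization p := by
  have hx : x ≠ 0 := by rintro rfl; simp at h; omega
  have hd : x ∣ n := Dvd.intro _ h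
  have hs : x.primeFactors ⊆ n.primeFactors := Nat.primeFactors_mono hd hn
  have h0 : ∀ p, p ∉ x.primeFactors → x.factorization p = 0 := fun p hp =>
    Finsupp.notMem_support_iff.1 (by rwa [Nat.support_factorization])
  have h1 : x = ∏ p ∈ n.primeFactors, p ^ x.factorization p := by
    conv_lhs => rw [← Nat.prod_factorization_pow_eq_self hx]
    rw [Finsupp.prod, Nat.support_factorization]
    exact prod_subset hs fun p _ hp => by rw [h0 p hp, pow_zero]
  have h2 : ArithmeticFunction.sigma 1 x = ∏ p ∈ n.primeFactors, sg p (x.factorization p) := by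
    rw [ArithmeticFunction.sigma_eq_prod_primeFactors_sum_range_factorization_pow_mul hx]
    simp only [mul_one]
    exact prod_subset hs fun p _ hp => by rw [h0 p hp]; exact sg_zero p
  refine ⟨?_, h1, fun p => (Nat.factorization_le_iff_dvd hx hn).2 hd p⟩
  rw [prod_mul_distrib, ← h1, ← h2, h]

/-- The signature of a solution. -/
def sig (n W x p : ℕ) : ℕ :=
  if p ≤ W ∨ 6 ≤ n.factorization p ∨ bad p (x.factorization p) then x.factorization p else 0

lemma fibre {n W : ℕ} (hn : n ≠ 0) (h5 : 5 ≤ W)
    (hW : ∀ S ⊆ n.primeFactors, (∀ p ∈ S, W < p) →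
      ∏ p ∈ S, sg p (ex p) ≤ W * ∏ p ∈ S, p ^ ex p)
    (X : Finset ℕ) (hX : ∀ x ∈ X, x * ArithmeticFunction.sigma 1 x = n)
    (hsig : ∀ x ∈ X, ∀ y ∈ X, ∀ p ∈ n.primeFactors, sig n W x p = sig n W y p) : #X ≤ W := by
  rcases X.eq_empty_or_nonempty with rfl | ⟨x, hx⟩
  · simp
  set Q := {p ∈ n.primeFactors | W < p} with hQ
  have hQp : ∀ p ∈ Q, p.Prime ∧ W < p := fun p hp =>
    ⟨Nat.prime_of_mem_primeFactors (mem_filter.1 hp).1, (mem_filter.1 hp).2⟩
  have hex : ∀ p, 0 < ex p := fun p => by unfold ex; split_ifs <;> omega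
  have h1 := mp_card ex (fun p => sg p (ex p)) W Q
    (fun p hp => ⟨(hQp p hp).1, (hQp p hp).2, pow_lt_sg (hex p)⟩)
    fun S hS => hW S (hS.trans (filter_subset _ _)) fun p hp => (hQp p (hS hp)).2
  have h2 := h1.trans (hW Q (filter_subset _ _) fun p hp => (hQp p hp).2)
  have h3 := Nat.le_of_mul_le_mul_right h2 (prod_pos fun p hp => pow_pos (hQp p hp).1.pos _)
  obtain ⟨hx1, -, hx3⟩ := sol_prod hn (hX x hx)
  have key : ∀ y ∈ X, {p ∈ n.primeFactors | x.factorization p ≠ y.factorization p} ⊆ Q ∧
      (∀ p ∈ n.primeFactors.filter fun p => x.factorization p ≠ y.factorization p,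
        x.factorization p + y.factorization p = ex p) ∧
      ∏ p ∈ n.primeFactors with x.factorization p ≠ y.factorization p, p ^ ex p ∣
        ∏ p ∈ n.primeFactors with x.factorization p ≠ y.factorization p, sg p (ex p) := by
    intro y hy
    obtain ⟨hy1, -, hy3⟩ := sol_prod hn (hX y hy)
    have h4 : ∀ p ∈ n.primeFactors.filter fun p => x.factorization p ≠ y.factorization p,
        W < p ∧ n.factorization p ≤ 5 ∧ ¬ bad p (x.factorization p) ∧
          ¬ bad p (y.factorization p) := by
      intro p hp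
      obtain ⟨hp1, hp2⟩ := mem_filter.1 hp
      have h6 := hsig x hx y hy p hp1
      have h7 : ∀ c, bad p c → c ≠ 0 := fun c hc => by unfold bad at hc; omega
      unfold sig at h6
      by_cases h8 : p ≤ W ∨ 6 ≤ n.factorization p
      · rw [if_pos (by tauto), if_pos (by tauto)] at h6
        exact absurd h6 hp2
      · have h9 := h7 (x.factorization p)
        have h10 := h7 (y.factorization p)
        refine ⟨by omega, by omega, fun h => ?_, fun h => ?_⟩
        · rw [if_pos (by tauto)] at h6
          split_ifs at h6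
          · exact hp2 h6
          · exact h9 h h6
        · rw [if_pos (c := p ≤ W ∨ 6 ≤ n.factorization p ∨ bad p (y.factorization p))
            (by tauto)] at h6
          split_ifs at h6
          · exact hp2 h6
          · exact h10 h h6.symm
    refine ⟨fun p hp => mem_filter.2 ⟨(mem_filter.1 hp).1, (h4 p hp).1⟩, ?_⟩
    refine pair _ _ _ (fun p hp => ?_) ?_
    · obtain ⟨a1, a2, a3, a4⟩ := h4 p hp
      exact ⟨Nat.prime_of_mem_primeFactors (mem_filter.1 hp).1, by omega, (mem_filter.1 hp).2,
        (hx3 p).trans a2, (hy3 p).trans a2, a3, a4⟩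
    · have h6 := hx1.symm.trans hy1
      rw [← prod_filter_mul_prod_filter_not _ fun p => x.factorization p ≠ y.factorization p,
        ← prod_filter_mul_prod_filter_not n.primeFactors
          fun p => x.factorization p ≠ y.factorization p] at h6
      have h7 : ∏ p ∈ n.primeFactors with ¬ x.factorization p ≠ y.factorization p,
          p ^ x.factorization p * sg p (x.factorization p) =
          ∏ p ∈ n.primeFactors with ¬ x.factorization p ≠ y.factorization p,
            p ^ y.factorization p * sg p (y.factorization p) :=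
        prod_congr rfl fun p hp => by rw [not_not.1 (mem_filter.1 hp).2]
      rw [h7] at h6
      refine Nat.eq_of_mul_eq_mul_right (prod_pos fun p hp => ?_) h6
      exact Nat.mul_pos (pow_pos (Nat.prime_of_mem_primeFactors (mem_filter.1 hp).1).pos _)
        (sg_pos _ _)
  refine le_trans (card_le_card_of_injOn
    (fun y => {p ∈ n.primeFactors | x.factorization p ≠ y.factorization p})
    (fun y hy => ?_) fun y hy z hz hyz => ?_) h3
  · obtain ⟨k1, -, k3⟩ := key y hy
    exact mem_coe.2 (mem_filter.2 ⟨mem_powerset.2 k1, k3⟩)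
  · obtain ⟨-, ky, -⟩ := key y hy
    obtain ⟨-, kz, -⟩ := key z hz
    rw [(sol_prod hn (hX y hy)).2.1, (sol_prod hn (hX z hz)).2.1]
    refine prod_congr rfl fun p hp => ?_
    congr 1
    dsimp only at hyz
    by_cases h : x.factorization p = y.factorization p
    · have h6 : p ∉ n.primeFactors.filter fun p => x.factorization p ≠ z.factorization p := by
        rw [← hyz]
        exact fun h7 => (mem_filter.1 h7).2 h
      rw [← h]
      by_contra h7
      exact h6 (mem_filter.2 ⟨hp, h7⟩)
    · have h6 := ky p (mem_filter.2 ⟨hp, h⟩)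
      have h7 := kz p (hyz ▸ mem_filter.2 ⟨hp, h⟩)
      omega

/-- The total exponent of 2, 3 and 5. -/
def tt (n : ℕ) : ℕ := n.factorization 2 + n.factorization 3 + n.factorization 5

lemma tt_prod (S : Finset ℕ) (g : ℕ → ℕ) (hg : ∀ p ∈ S, g p ≠ 0) :
    tt (∏ p ∈ S, g p) = ∑ p ∈ S, tt (g p) := by
  simp only [tt, Nat.factorization_prod hg, Finsupp.finset_sum_apply, sum_add_distrib]

lemma tt_pos {m : ℕ} (hm : m ≠ 0) (h : 2 ∣ m ∨ 3 ∣ m ∨ 5 ∣ m) : 1 ≤ tt m := by
  unfold tt
  rcases h with h | h | h
  · have := Nat.prime_two.factorization_pos_of_dvd hm h; omega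
  · have := Nat.prime_three.factorization_pos_of_dvd hm h; omega
  · have := Nat.prime_five.factorization_pos_of_dvd hm h; omega

lemma count {n W : ℕ} (hn : n ≠ 0) (h5 : 5 ≤ W)
    (hW : ∀ S ⊆ n.primeFactors, (∀ p ∈ S, W < p) →
      ∏ p ∈ S, sg p (ex p) ≤ W * ∏ p ∈ S, p ^ ex p)
    {μ : ℝ} (h0 : 0 < μ) (h1 : μ ≤ 1)
    (X : Finset ℕ) (hX : ∀ x ∈ X, x * ArithmeticFunction.sigma 1 x = n) :
    #X * μ ^ tt n ≤ W * ∏ p ∈ n.primeFactors,
      if p ≤ W ∨ 6 ≤ n.factorization p then (n.factorization p : ℝ) + 1 else 1 + 5 * μ := by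
  set f : ℕ → n.primeFactors → ℕ := fun x p => sig n W x p with hf
  set w : ℕ → ℕ → ℝ := fun p j => if (p ≤ W ∨ 6 ≤ n.factorization p) ∨ j = 0 then 1 else μ
    with hw
  have hw0 : ∀ p j, 0 ≤ w p j := fun p j => by
    simp only [hw]; split_ifs <;> linarith
  have a1 : #X ≤ W * #(X.image f) := by
    refine card_le_mul_card_image X W fun b _ => ?_
    refine fibre hn h5 hW _ (fun x hx => hX x (mem_filter.1 hx).1) fun x hx y hy p hp => ?_
    exact congrFun ((mem_filter.1 hx).2.trans (mem_filter.1 hy).2.symm) ⟨p, hp⟩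
  have a2 : ∀ b ∈ X.image f, μ ^ tt n ≤ ∏ p : n.primeFactors, w p (b p) := by
    intro b hb
    obtain ⟨x, hx, rfl⟩ := mem_image.1 hb
    obtain ⟨hx1, -, -⟩ := sol_prod hn (hX x hx)
    have hg : ∀ p ∈ n.primeFactors, p ^ x.factorization p * sg p (x.factorization p) ≠ 0 :=
      fun p hp => (Nat.mul_pos (pow_pos (Nat.prime_of_mem_primeFactors hp).pos _) (sg_pos _ _)).ne'
    have h2 : tt n = ∑ p ∈ n.primeFactors,
        tt (p ^ x.factorization p * sg p (x.factorization p)) := by
      rw [← tt_prod _ _ hg, ← hx1]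
    rw [h2, ← prod_pow_eq_pow_sum, ← prod_coe_sort]
    refine prod_le_prod (fun _ _ => by positivity) fun p _ => ?_
    simp only [hw, hf]
    split_ifs with h
    · exact pow_le_one₀ h0.le h1
    · have hp := Nat.prime_of_mem_primeFactors p.2
      have h3 : bad p (x.factorization p) := by
        by_contra h3
        exact h (Or.inr (if_neg (by tauto)))
      have h4 : (p : ℕ) % 2 = 1 := hp.eq_two_or_odd.resolve_left (by omega)
      have h6 := tt_pos (hg p p.2) ((bad_dvd h4 h3).imp (Dvd.dvd.mul_left · _)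
        (Or.imp (Dvd.dvd.mul_left · _) (Dvd.dvd.mul_left · _)))
      simpa using pow_le_pow_of_le_one h0.le h1 h6
  have a3 : X.image f ⊆ Fintype.piFinset fun p : n.primeFactors => range (n.factorization p + 1) := by
    intro b hb
    obtain ⟨x, hx, rfl⟩ := mem_image.1 hb
    refine Fintype.mem_piFinset.2 fun p => mem_range.2 ?_
    have := (sol_prod hn (hX x hx)).2.2 p
    simp only [hf, sig]
    split_ifs <;> omega
  have a4 : #(X.image f) * μ ^ tt n ≤ ∏ p ∈ n.primeFactors,
      if p ≤ W ∨ 6 ≤ n.factorization p then (n.factorization p : ℝ) + 1 else 1 + 5 * μ := by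
    calc #(X.image f) * μ ^ tt n = ∑ b ∈ X.image f, μ ^ tt n := by simp
      _ ≤ ∑ b ∈ X.image f, ∏ p : n.primeFactors, w p (b p) := sum_le_sum a2
      _ ≤ ∑ b ∈ Fintype.piFinset fun p : n.primeFactors => range (n.factorization p + 1),
            ∏ p : n.primeFactors, w p (b p) :=
          sum_le_sum_of_subset_of_nonneg a3 fun _ _ _ => prod_nonneg fun _ _ => hw0 _ _
      _ = ∏ p : n.primeFactors, ∑ j ∈ range (n.factorization p + 1), w p j :=
          (prod_univ_sum _ fun (p : n.primeFactors) j => w p j).symm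
      _ = ∏ p ∈ n.primeFactors, ∑ j ∈ range (n.factorization p + 1), w p j :=
          prod_coe_sort n.primeFactors fun p => ∑ j ∈ range (n.factorization p + 1), w p j
      _ ≤ _ := by
          refine prod_le_prod (fun _ _ => sum_nonneg fun _ _ => hw0 _ _) fun p _ => ?_
          split_ifs with h
          · simp [hw, h]
          · rw [sum_range_succ']
            have h2 : ∑ j ∈ range (n.factorization p), w p (j + 1) = n.factorization p * μ := by
              simp [hw, h]
            have h3 : (n.factorization p : ℝ) ≤ 5 := by exact_mod_cast (by omega)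
            have h4 : w p 0 = 1 := by simp [hw]
            rw [h2, h4]
            nlinarith
  calc (#X : ℝ) * μ ^ tt n ≤ (W * #(X.image f) : ℕ) * μ ^ tt n := by gcongr
    _ = W * (#(X.image f) * μ ^ tt n) := by push_cast; ring
    _ ≤ _ := by gcongr

end Pool.Agent.Lib.MP_253cbc_nt.Six
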