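import Pool.Agent.Lib.MP_253cbc_nt.SixB
import Pool.Agent.Lib.MP_0a06fe_nt.Mertens

/-!
The analytic estimates for the weighted count.
-/

open Finset

namespace Pool.Agent.Lib.MP_253cbc_nt.Six

lemma sum_log (n : ℕ) : ∑ p ∈ n.primeFactors, n.factorization p * Real.log p = Real.log n := by
  rw [Real.log_nat_eq_sum_factorization, Finsupp.sum, Nat.support_factorization]

lemma one_le_fact {n p : ℕ} (hp : p ∈ n.primeFactors) : (1 : ℝ) ≤ n.factorization p := by
  have := (Nat.prime_of_mem_primeFactors hp).factorization_pos_of_dvd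
    (Nat.mem_primeFactors.1 hp).2.2 (Nat.dvd_of_mem_primeFactors hp)
  exact_mod_cast this

lemma half_le_log {n p : ℕ} (hp : p ∈ n.primeFactors) : 1 / 2 ≤ Real.log p := by
  have h : (2 : ℝ) ≤ p := by exact_mod_cast (Nat.prime_of_mem_primeFactors hp).two_le
  linarith [Real.log_two_gt_d9, Real.log_le_log two_pos h]

lemma sum_fact_le (n : ℕ) : ∑ p ∈ n.primeFactors, (n.factorization p : ℝ) ≤ 2 * Real.log n := by
  rw [← sum_log, mul_sum]
  refine sum_le_sum fun p hp => ?_
  nlinarith [half_le_log hp, one_le_fact hp]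

lemma sg_le {p : ℕ} (hp : p.Prime) (a : ℕ) :
    (sg p a : ℝ) ≤ Real.exp ((p : ℝ)⁻¹ + 2 * ((p : ℝ) ^ 2)⁻¹) * p ^ a := by
  have h2 : (2 : ℝ) ≤ p := by exact_mod_cast hp.two_le
  have h1 : (sg p a : ℝ) * (p - 1) = p ^ (a + 1) - 1 := by
    rw [sg]
    push_cast
    exact geom_sum_mul _ _
  have h3 := Real.add_one_le_exp ((p : ℝ)⁻¹ + 2 * ((p : ℝ) ^ 2)⁻¹)
  have h4 : (p : ℝ) ≤ ((p : ℝ)⁻¹ + 2 * ((p : ℝ) ^ 2)⁻¹ + 1) * (p - 1) := by
    rw [← sub_nonneg]
    have : ((p : ℝ)⁻¹ + 2 * ((p : ℝ) ^ 2)⁻¹ + 1) * (p - 1) - p = (p - 2) / p ^ 2 := by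
      field_simp
      ring
    rw [this]
    exact div_nonneg (by linarith) (by positivity)
  have h5 : (0 : ℝ) < p ^ a := by positivity
  refine le_of_mul_le_mul_right ?_ (show (0 : ℝ) < p - 1 by linarith)
  rw [h1, pow_succ]
  have h6 := h4.trans (mul_le_mul_of_nonneg_right h3 (by linarith))
  nlinarith [mul_le_mul_of_nonneg_left h6 h5.le]

lemma abund {n : ℕ} (hL : Real.exp 1 ≤ Real.log n) (e : ℕ → ℕ) {S : Finset ℕ}
    (hS : S ⊆ n.primeFactors) :
    ∏ p ∈ S, (sg p (e p) : ℝ) ≤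
      3 * Real.exp 7 * Real.log (Real.log n) * ∏ p ∈ S, (p : ℝ) ^ e p := by
  set L := Real.log n with hLd
  have he := Real.exp_one_gt_d9
  have hLL : 1 ≤ Real.log L := by rwa [Real.le_log_iff_exp_le (by linarith)]
  have hp : ∀ p ∈ S, p.Prime := fun p hp => Nat.prime_of_mem_primeFactors (hS hp)
  obtain ⟨Z, z1, z2⟩ : ∃ Z : ℕ, L ≤ Z ∧ (Z : ℝ) ≤ 2 * L :=
    ⟨⌈L⌉₊, Nat.le_ceil _, by linarith [Nat.ceil_lt_add_one (by linarith : 0 ≤ L)]⟩
  have z3 : 2 ≤ Z := by exact_mod_cast (by linarith : (2 : ℝ) ≤ Z)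
  have a1 := MP_0a06fe_nt.sum_inv_primesLE_le z3
  have a2 := MP_0a06fe_nt.sum_inv_sq_le S le_rfl fun p h => (hp p h).one_lt
  have a3 : ∑ p ∈ S with p ≤ Z, (p : ℝ)⁻¹ ≤ ∑ p ∈ Z.primesLE, (p : ℝ)⁻¹ :=
    sum_le_sum_of_subset_of_nonneg
      (fun p h => Nat.mem_primesLE.2 ⟨(mem_filter.1 h).2, hp p (mem_filter.1 h).1⟩)
      fun _ _ _ => by positivity
  have a4 : ∑ p ∈ S with ¬ p ≤ Z, (p : ℝ)⁻¹ ≤ 2 := by
    calc _ ≤ ∑ p ∈ S with ¬ p ≤ Z, n.factorization p * L⁻¹ := by
          refine sum_le_sum fun p h => ?_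
          have h1 : (Z : ℝ) ≤ p := by exact_mod_cast (not_le.1 (mem_filter.1 h).2).le
          have h2 : (p : ℝ)⁻¹ ≤ L⁻¹ := inv_anti₀ (by linarith) (z1.trans h1)
          exact h2.trans (le_mul_of_one_le_left (by positivity)
            (one_le_fact (hS (mem_filter.1 h).1)))
      _ ≤ ∑ p ∈ n.primeFactors, n.factorization p * L⁻¹ :=
          sum_le_sum_of_subset_of_nonneg ((filter_subset _ _).trans hS)
            fun _ _ _ => by positivity
      _ ≤ 2 := by
          rw [← sum_mul, mul_inv_le_iff₀ (by linarith)]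
          exact sum_fact_le n
  have a5 : Real.log (1 + Real.log Z) ≤ Real.log (3 * Real.log L) := by
    have h1 : (0 : ℝ) ≤ Real.log Z := Real.log_natCast_nonneg _
    refine Real.log_le_log (by linarith) ?_
    have h2 := Real.log_le_log (by linarith) z2
    rw [Real.log_mul two_ne_zero (by linarith)] at h2
    linarith [Real.log_two_lt_d9]
  have a6 := sum_filter_add_sum_filter_not S (fun p => p ≤ Z) fun p => (p : ℝ)⁻¹
  refine (prod_le_prod (fun _ _ => Nat.cast_nonneg _) fun p h => sg_le (hp p h) (e p)).trans ?_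
  rw [prod_mul_distrib, ← Real.exp_sum, sum_add_distrib, ← mul_sum]
  refine mul_le_mul_of_nonneg_right ?_ (by positivity)
  calc _ ≤ Real.exp (Real.log (3 * Real.log L) + 7) := by
        refine Real.exp_le_exp.2 ?_
        simp only [Nat.cast_one, inv_one] at a2
        linarith
    _ = _ := by rw [Real.exp_add, Real.exp_log (by linarith)]; ring

lemma key_log {L k c : ℝ} (hL : Real.exp 1 ≤ L) (hk : 1 ≤ k) (hc : c ≤ k) (hc' : c ≤ √L) :
    c * Real.log (3 * L) ≤ 34 * (k * Real.log (2 + L / (k * Real.log L))) := by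
  have he := Real.exp_one_gt_d9
  have hLL : 1 ≤ Real.log L := by rwa [Real.le_log_iff_exp_le (by linarith)]
  obtain ⟨u, u0, u4⟩ : ∃ u : ℝ, 0 < u ∧ u ^ 4 = √L := by
    refine ⟨√(√(√L)), Real.sqrt_pos.2 (Real.sqrt_pos.2 (Real.sqrt_pos.2 (by linarith))), ?_⟩
    rw [show 4 = 2 * 2 from rfl, pow_mul, Real.sq_sqrt (Real.sqrt_nonneg _),
      Real.sq_sqrt (Real.sqrt_nonneg _)]
  have u8 : u ^ 8 = L := by
    rw [show 8 = 4 * 2 from rfl, pow_mul, u4, Real.sq_sqrt (by linarith)]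
  have u1 : 1 ≤ u := by
    by_contra h
    have := pow_le_one₀ (n := 8) u0.le (not_le.1 h).le
    linarith
  have l1 : Real.log L ≤ 8 * u := by
    rw [← u8, Real.log_pow]
    have := Real.log_le_sub_one_of_pos u0
    push_cast
    linarith
  set D := 2 + L / (k * Real.log L) with hD
  have L0 : 0 < L := by linarith
  have k0 : 0 < k := by linarith
  have d0 : 0 ≤ L / (k * Real.log L) := by positivity
  have d2 : 2 ≤ D := by linarith
  have d3 : 1 / 2 ≤ Real.log D := by linarith [Real.log_two_gt_d9, Real.log_le_log two_pos d2]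
  have l3 : 0 ≤ Real.log (3 * L) := Real.log_nonneg (by linarith)
  rcases le_total k (u ^ 6) with h | h
  · have h1 : u ≤ 8 * D := by
      have : u / 8 ≤ L / (k * Real.log L) := by
        rw [div_le_div_iff₀ (by norm_num) (by positivity), ← u8]
        calc u * (k * Real.log (u ^ 8)) ≤ u * (u ^ 6 * (8 * u)) := by rw [u8]; gcongr
          _ = u ^ 8 * 8 := by ring
      linarith
    have h2 : (2 : ℝ) ^ 3 ≤ D ^ 3 := by gcongr
    have h3 : u ≤ D ^ 4 := by nlinarith
    have h4 : (2 : ℝ) ^ 2 ≤ D ^ 2 := by gcongr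
    have h5 : 3 * L ≤ D ^ 34 := by
      calc 3 * L = 3 * u ^ 8 := by rw [u8]
        _ ≤ D ^ 2 * (D ^ 4) ^ 8 := by gcongr; linarith
        _ = D ^ 34 := by ring
    have h6 := Real.log_le_log (by linarith) h5
    rw [Real.log_pow] at h6
    push_cast at h6
    nlinarith [mul_le_mul_of_nonneg_right hc l3]
  · have h1 : Real.log (3 * L) ≤ 10 * u ^ 2 := by
      rw [Real.log_mul three_ne_zero (by linarith)]
      have := Real.log_le_sub_one_of_pos (show (0 : ℝ) < 3 by norm_num)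
      nlinarith
    calc c * Real.log (3 * L) ≤ u ^ 4 * (10 * u ^ 2) := by
          rw [← u4] at hc'
          exact (mul_le_mul_of_nonneg_right hc' l3).trans (by gcongr)
      _ = 10 * u ^ 6 := by ring
      _ ≤ _ := by nlinarith

lemma card_small (P : Finset ℕ) (hP : ∀ p ∈ P, 0 < p) {x : ℝ} (hx : 0 ≤ x) :
    (#{p ∈ P | ((p : ℕ) : ℝ) ≤ x} : ℝ) ≤ x := by
  have h : {p ∈ P | ((p : ℕ) : ℝ) ≤ x} ⊆ Icc 1 ⌊x⌋₊ := fun p hp =>
    mem_Icc.2 ⟨hP p (mem_filter.1 hp).1, Nat.le_floor (mem_filter.1 hp).2⟩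
  have h1 := card_le_card h
  rw [Nat.card_Icc, Nat.add_sub_cancel] at h1
  exact le_trans (by exact_mod_cast h1) (Nat.floor_le hx)

lemma factor_le {n W p : ℕ} (hL : Real.exp 1 ≤ Real.log n) (hp : p ∈ n.primeFactors) {D : ℝ}
    (hD : 2 ≤ D) :
    (if p ≤ W ∨ 6 ≤ n.factorization p then (n.factorization p : ℝ) + 1 else 1 + 5 * D⁻¹) ≤
      Real.exp (2 * (if (p : ℝ) ≤ W then 1 else 0) + Real.log (3 * Real.log n) *
        (if 6 ≤ n.factorization p ∧ (p : ℝ) ≤ √(Real.log n) then 1 else 0) +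
        Real.log D * (if 6 ≤ n.factorization p then 1 else 0) +
        5 * D⁻¹ * ((if (p : ℝ) ≤ √(Real.log n) then 1 else 0) +
          if ¬ (p : ℝ) ≤ √(Real.log n) then (n.factorization p : ℝ) else 0)) := by
  have he := Real.exp_one_gt_d9
  have v1 := one_le_fact hp
  have v2 : (n.factorization p : ℝ) ≤ 2 * Real.log n :=
    (single_le_sum (f := fun p => (n.factorization p : ℝ)) (fun _ _ => Nat.cast_nonneg _) hp).trans
      (sum_fact_le n)
  have m0 : 0 < D⁻¹ := by positivity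
  have m1 : D * D⁻¹ = 1 := mul_inv_cancel₀ (by linarith)
  have l0 : 0 ≤ Real.log D := Real.log_nonneg (by linarith)
  have l3 : 0 ≤ Real.log (3 * Real.log n) := Real.log_nonneg (by linarith)
  have i0 : (0 : ℝ) ≤ if (p : ℝ) ≤ W then 1 else 0 := by split_ifs <;> norm_num
  set v : ℝ := ((n.factorization p : ℕ) : ℝ) with hv
  by_cases h6 : 6 ≤ n.factorization p
  · rw [if_pos (Or.inr h6), if_pos h6]
    by_cases hs : (p : ℝ) ≤ √(Real.log n)
    · rw [if_pos (And.intro h6 hs), if_pos hs, if_neg (not_not.2 hs)]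
      calc v + 1 ≤ Real.exp (Real.log (3 * Real.log n)) := by
            rw [Real.exp_log (by linarith)]; linarith
        _ ≤ _ := Real.exp_le_exp.2 (by linarith)
    · rw [if_neg (fun h : 6 ≤ n.factorization p ∧ _ => hs h.2), if_neg hs, if_pos hs]
      calc v + 1 ≤ Real.exp (Real.log D + D⁻¹ * v) := by
            rw [Real.exp_add, Real.exp_log (by linarith)]
            have h1 := mul_le_mul_of_nonneg_left (Real.add_one_le_exp (D⁻¹ * v))
              (show 0 ≤ D by linarith)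
            rw [mul_add, ← mul_assoc, m1] at h1
            linarith
        _ ≤ _ := Real.exp_le_exp.2 (by nlinarith)
  · rw [if_neg h6, if_neg fun h : 6 ≤ n.factorization p ∧ _ => h6 h.1]
    have i1 : (1 : ℝ) ≤ (if (p : ℝ) ≤ √(Real.log n) then 1 else 0) +
        if ¬ (p : ℝ) ≤ √(Real.log n) then v else 0 := by
      split_ifs <;> linarith
    have i2 := mul_le_mul_of_nonneg_left i1 (show 0 ≤ 5 * D⁻¹ by positivity)
    by_cases hW : p ≤ W
    · rw [if_pos (Or.inl hW), if_pos (by exact_mod_cast hW)]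
      have v5 : v ≤ 5 := by rw [hv]; exact_mod_cast (by omega)
      calc v + 1 ≤ Real.exp (1 + 1) := by rw [Real.exp_add]; nlinarith
        _ ≤ _ := Real.exp_le_exp.2 (by linarith)
    · rw [if_neg (by tauto)]
      calc 1 + 5 * D⁻¹ ≤ Real.exp (5 * D⁻¹) := by linarith [Real.add_one_le_exp (5 * D⁻¹)]
        _ ≤ _ := Real.exp_le_exp.2 (by linarith)

theorem main : ∃ C : ℝ, ∀ n k : ℕ, 16 ≤ n →
    1 + tt n + #{p ∈ n.primeFactors | 6 ≤ n.factorization p} ≤ k →
    ∀ X : Finset ℕ, (∀ x ∈ X, x * ArithmeticFunction.sigma 1 x = n) →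
      (#X : ℝ) ≤ (2 + Real.log n / (k * Real.log (Real.log n))) ^ (C * k) := by
  refine ⟨34 * (3 * (3 * Real.exp 7 + 1) + 1) + 41, fun n k hn hk X hX => ?_⟩
  have he := Real.exp_one_gt_d9
  have hL : Real.exp 1 ≤ Real.log n := by
    have h1 : ((2 : ℝ) ^ 4) ≤ n := by exact_mod_cast hn
    have h2 := Real.log_le_log (by norm_num) h1
    rw [Real.log_pow] at h2
    push_cast at h2
    linarith [Real.exp_one_lt_d9, Real.log_two_gt_d9]
  have hab := fun (S : Finset ℕ) (hS : S ⊆ n.primeFactors) => abund hL ex hS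
  have hf := fun (W p : ℕ) (hp : p ∈ n.primeFactors) (D : ℝ) (hD : 2 ≤ D) =>
    factor_le (W := W) hL hp hD
  have hsl := sum_log n
  set L := Real.log n with hLd
  have hLL : 1 ≤ Real.log L := by rwa [Real.le_log_iff_exp_le (by linarith)]
  have k1 : (1 : ℝ) ≤ k := by exact_mod_cast (by omega : 1 ≤ k)
  have e7 : 7 + 1 ≤ Real.exp 7 := Real.add_one_le_exp 7
  obtain ⟨W, w1, w2⟩ : ∃ W : ℕ, 3 * Real.exp 7 * Real.log L ≤ W ∧
      (W : ℝ) ≤ (3 * Real.exp 7 + 1) * Real.log L :=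
    ⟨⌈3 * Real.exp 7 * Real.log L⌉₊, Nat.le_ceil _, by
      linarith [Nat.ceil_lt_add_one (show 0 ≤ 3 * Real.exp 7 * Real.log L by positivity)]⟩
  have w5 : 5 ≤ W := by exact_mod_cast (by nlinarith : (5 : ℝ) ≤ W)
  have s1 : 1 ≤ √L := Real.one_le_sqrt.2 (by linarith)
  have b1 := key_log hL k1 k1 s1
  set D := 2 + L / (k * Real.log L) with hD
  have d0 : 0 ≤ L / (k * Real.log L) := by positivity
  have d2 : 2 ≤ D := by linarith
  have d3 : 1 / 2 ≤ Real.log D := by linarith [Real.log_two_gt_d9, Real.log_le_log two_pos d2]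
  have m0 : 0 < D⁻¹ := by positivity
  have h1 := count (W := W) (by omega) w5 (fun S hS _ => by
    have h2 := (hab S hS).trans (mul_le_mul_of_nonneg_right w1 (by positivity))
    exact_mod_cast h2) m0 (inv_le_one_of_one_le₀ (by linarith)) X hX
  have h2 := prod_le_prod (fun p _ => by split_ifs <;> positivity) fun p hp => hf W p hp D d2
  rw [← Real.exp_sum] at h2
  simp only [sum_add_distrib, ← mul_sum, sum_boole] at h2
  rw [← sum_filter] at h2
  have hP : ∀ p ∈ n.primeFactors, 0 < p := fun p hp => (Nat.prime_of_mem_primeFactors hp).pos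
  have c1 := card_small _ hP (Nat.cast_nonneg (α := ℝ) W)
  have c2 := card_small _ hP (Real.sqrt_nonneg L)
  have c3 : (#{p ∈ n.primeFactors | 6 ≤ n.factorization p ∧ (p : ℝ) ≤ √L} : ℝ) ≤ k := by
    have : #{p ∈ n.primeFactors | 6 ≤ n.factorization p ∧ (p : ℝ) ≤ √L} ≤
        #{p ∈ n.primeFactors | 6 ≤ n.factorization p} :=
      card_le_card (monotone_filter_right _ fun _ _ h => h.1)
    exact_mod_cast (by omega)
  have c4 : (#{p ∈ n.primeFactors | 6 ≤ n.factorization p ∧ (p : ℝ) ≤ √L} : ℝ) ≤ √L := by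
    have : #{p ∈ n.primeFactors | 6 ≤ n.factorization p ∧ (p : ℝ) ≤ √L} ≤
        #{p ∈ n.primeFactors | ((p : ℕ) : ℝ) ≤ √L} :=
      card_le_card (monotone_filter_right _ fun _ _ h => h.2)
    exact le_trans (by exact_mod_cast this) c2
  have b2 := key_log hL k1 c3 c4
  rw [← hD] at b2
  have s2 : Real.log √L = Real.log L / 2 := Real.log_sqrt (by linarith)
  have c5 : (∑ p ∈ n.primeFactors with ¬ ((p : ℕ) : ℝ) ≤ √L, (n.factorization p : ℝ)) * Real.log L ≤
      2 * L := by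
    rw [sum_mul]
    calc _ ≤ ∑ p ∈ n.primeFactors with ¬ ((p : ℕ) : ℝ) ≤ √L, 2 * (n.factorization p * Real.log p) := by
          refine sum_le_sum fun p hp => ?_
          have h3 := Real.log_le_log (by linarith) (not_le.1 (mem_filter.1 hp).2).le
          nlinarith [Nat.cast_nonneg (α := ℝ) (n.factorization p)]
      _ ≤ ∑ p ∈ n.primeFactors, 2 * (n.factorization p * Real.log p) :=
          sum_le_sum_of_subset_of_nonneg (filter_subset _ _) fun p _ _ =>
            mul_nonneg two_pos.le (mul_nonneg (Nat.cast_nonneg _) (Real.log_natCast_nonneg _))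
      _ = _ := by rw [← mul_sum, hsl]
  have c6 : √L * Real.log L ≤ 2 * L := by
    have h3 := Real.log_le_sub_one_of_pos (show 0 < √L by linarith)
    have h4 : √L * √L = L := Real.mul_self_sqrt (by linarith)
    nlinarith
  have c7 : ∀ z : ℝ, z * Real.log L ≤ 4 * L → D⁻¹ * z ≤ 4 * k := by
    intro z hz
    rw [inv_mul_le_iff₀ (by linarith)]
    refine le_of_mul_le_mul_right (hz.trans ?_) (show 0 < Real.log L by linarith)
    have h3 : L / (k * Real.log L) * (k * Real.log L) = L := div_mul_cancel₀ _ (by positivity)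
    have h4 : L / (k * Real.log L) * (k * Real.log L) ≤ D * (k * Real.log L) := by
      gcongr; linarith
    linarith
  have c8 := c7 (#{p ∈ n.primeFactors | ((p : ℕ) : ℝ) ≤ √L} +
    ∑ p ∈ n.primeFactors with ¬ ((p : ℕ) : ℝ) ≤ √L, (n.factorization p : ℝ)) (by
      have := mul_le_mul_of_nonneg_right c2 (show 0 ≤ Real.log L by linarith)
      linarith)
  have c9 : (tt n : ℝ) + #{p ∈ n.primeFactors | 6 ≤ n.factorization p} ≤ k := by
    exact_mod_cast (by omega)
  have b3 : Real.log L ≤ Real.log (3 * L) := Real.log_le_log (by linarith) (by linarith)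
  have h3 : (W : ℝ) ≤ Real.exp W := by linarith [Real.add_one_le_exp (W : ℝ)]
  have h4 := h1.trans (mul_le_mul h3 h2 (prod_nonneg fun p _ => by split_ifs <;> positivity)
    (Real.exp_pos _).le)
  rw [inv_pow, mul_inv_le_iff₀ (by positivity), ← Real.exp_log (show 0 < D ^ tt n by positivity),
    Real.log_pow, ← Real.exp_add, ← Real.exp_add] at h4
  rw [Real.rpow_def_of_pos (by linarith)]
  refine h4.trans (Real.exp_le_exp.2 ?_)
  have b4 := mul_le_mul_of_nonneg_left c9 (show 0 ≤ Real.log D by linarith)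
  have b5 := mul_le_mul_of_nonneg_left d3 (show (0 : ℝ) ≤ k by linarith)
  have b6 := mul_le_mul_of_nonneg_left (b3.trans (by linarith : Real.log (3 * L) ≤
    34 * (k * Real.log D))) (show 0 ≤ 3 * Real.exp 7 + 1 by positivity)
  linarith

end Pool.Agent.Lib.MP_253cbc_nt.Six
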